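import Mathlib

/-! Digits, the shift and the odometer on the 5-adic integers. -/

set_option autoImplicit false
open MeasureTheory Topology Filter
open scoped ENNReal

namespace Pool.Agent.Helper61.Odo

instance fact5 : Fact (Nat.Prime 5) := ⟨by norm_num⟩

noncomputable instance measZ : MeasurableSpace ℤ_[5] := borel _
instance borelZ : BorelSpace ℤ_[5] := ⟨rfl⟩

/-- lowest digit -/
noncomputable def dg (x : ℤ_[5]) : ℕ := PadicInt.zmodRepr x

theorem dg_lt (x : ℤ_[5]) : dg x < 5 := PadicInt.zmodRepr_lt_p x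

theorem mem_max_iff (x : ℤ_[5]) : x ∈ IsLocalRing.maximalIdeal ℤ_[5] ↔ ∃ y, x = 5 * y := by
  rw [PadicInt.maximalIdeal_eq_span_p, Ideal.mem_span_singleton]
  exact Iff.rfl

theorem exists_sh (x : ℤ_[5]) : ∃ y : ℤ_[5], x = (dg x : ℤ_[5]) + 5 * y := by
  obtain ⟨y, hy⟩ := (mem_max_iff _).1 (PadicInt.sub_zmodRepr_mem x)
  exact ⟨y, by rw [← hy]; unfold dg; ring⟩

/-- shift -/
noncomputable def sh (x : ℤ_[5]) : ℤ_[5] := (exists_sh x).choose

theorem sh_spec (x : ℤ_[5]) : x = (dg x : ℤ_[5]) + 5 * sh x := (exists_sh x).choose_spec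

theorem five_ne : (5 : ℤ_[5]) ≠ 0 := by
  have : ((5 : ℕ) : ℤ_[5]) ≠ 0 := Nat.cast_ne_zero.mpr (by norm_num)
  exact this

theorem dg_sh_unique {x y : ℤ_[5]} {j : ℕ} (hj : j < 5) (h : x = (j : ℤ_[5]) + 5 * y) :
    dg x = j ∧ sh x = y := by
  have h1 : dg x = j := by
    apply PadicInt.zmodRepr_unique x j hj
    rw [mem_max_iff]
    exact ⟨y, by rw [h]; ring⟩
  refine ⟨h1, ?_⟩
  have h2 := sh_spec x
  rw [h1] at h2
  have : (5 : ℤ_[5]) * sh x = 5 * y := by
    have := h2.symm.trans h
    exact add_left_cancel this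
  exact mul_left_cancel₀ five_ne this

theorem norm_five : ‖(5 : ℤ_[5])‖ = 1 / 5 := by
  have := PadicInt.norm_p (p := 5)
  norm_num at this ⊢
  exact_mod_cast this

theorem dg_eq_of_norm {x y : ℤ_[5]} (h : ‖x - y‖ < 1) : dg x = dg y := by
  have h1 : x - y ∈ IsLocalRing.maximalIdeal ℤ_[5] := by
    rw [IsLocalRing.mem_maximalIdeal, PadicInt.mem_nonunits]; exact h
  obtain ⟨z, hz⟩ := (mem_max_iff _).1 h1
  have h2 : x = (dg y : ℤ_[5]) + 5 * (sh y + z) := by
    have := sh_spec y
    linear_combination hz + this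
  exact (dg_sh_unique (dg_lt y) h2).1

theorem dg_continuous : Continuous dg := by
  rw [Metric.continuous_iff]
  intro b ε hε
  refine ⟨1, one_pos, fun a ha => ?_⟩
  rw [dist_eq_norm] at ha
  rw [dg_eq_of_norm ha, dist_self]
  exact hε

theorem sh_continuous : Continuous sh := by
  rw [Metric.continuous_iff]
  intro b ε hε
  refine ⟨min 1 (ε / 5), lt_min one_pos (by positivity), fun a ha => ?_⟩
  rw [dist_eq_norm] at ha ⊢
  have h1 := dg_eq_of_norm (ha.trans_le (min_le_left _ _))
  have h2 : a - b = 5 * (sh a - sh b) := by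
    have ha' := sh_spec a
    have hb' := sh_spec b
    rw [h1] at ha'
    linear_combination ha' - hb'
  have h3 : ‖a - b‖ = 1 / 5 * ‖sh a - sh b‖ := by
    rw [h2, norm_mul, norm_five]
  have h4 := ha.trans_le (min_le_right _ _)
  rw [h3] at h4
  linarith

theorem dg_meas : Measurable dg := dg_continuous.measurable
theorem sh_meas : Measurable sh := sh_continuous.measurable

theorem sh_iter_meas (k : ℕ) : Measurable (sh^[k]) := sh_meas.iterate k

/-- digit number `j` -/
noncomputable def digit (j : ℕ) (x : ℤ_[5]) : ℕ := dg (sh^[j] x)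

theorem digit_meas (j : ℕ) : Measurable (digit j) := dg_meas.comp (sh_iter_meas j)

theorem digit_lt (j : ℕ) (x : ℤ_[5]) : digit j x < 5 := dg_lt _

theorem digit_modify (j : ℕ) : ∀ (x : ℤ_[5]) (e : ℕ), e < 5 → ∀ i,
    digit i (x + ((e : ℤ_[5]) - (digit j x : ℤ_[5])) * 5 ^ j) = if i = j then e else digit i x := by
  induction j with
  | zero =>
    intro x e he i
    have h : x + ((e : ℤ_[5]) - (digit 0 x : ℤ_[5])) * 5 ^ 0 = (e : ℤ_[5]) + 5 * sh x := by
      have := sh_spec x
      have h0 : digit 0 x = dg x := rfl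
      rw [h0]
      linear_combination this
    obtain ⟨h1, h2⟩ := dg_sh_unique he h
    cases i with
    | zero => simpa [digit] using h1
    | succ i =>
      simp only [Nat.add_eq_zero_iff, one_ne_zero, and_false, if_false]
      simp only [digit, Function.iterate_succ_apply] at h2 ⊢
      rw [h2]
  | succ j ih =>
    intro x e he i
    have h : x + ((e : ℤ_[5]) - (digit (j + 1) x : ℤ_[5])) * 5 ^ (j + 1)
        = (dg x : ℤ_[5]) + 5 * (sh x + ((e : ℤ_[5]) - (digit j (sh x) : ℤ_[5])) * 5 ^ j) := by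
      have := sh_spec x
      have h0 : digit (j + 1) x = digit j (sh x) := rfl
      rw [h0, pow_succ]
      linear_combination this
    obtain ⟨h1, h2⟩ := dg_sh_unique (dg_lt x) h
    cases i with
    | zero => simpa [digit] using h1
    | succ i =>
      have h3 : digit (i + 1) (x + ((e : ℤ_[5]) - (digit (j + 1) x : ℤ_[5])) * 5 ^ (j + 1))
          = digit i (sh (x + ((e : ℤ_[5]) - (digit (j + 1) x : ℤ_[5])) * 5 ^ (j + 1))) := rfl
      rw [h3, h2, ih (sh x) e he i]
      simp only [Nat.add_right_cancel_iff]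
      rfl

/-- points with infinitely many digits equal to 2 -/
def Good (x : ℤ_[5]) : Prop := ∀ n, ∃ k, n ≤ k ∧ digit k x = 2

theorem Good.sh {x : ℤ_[5]} (h : Good x) : Good (sh x) := by
  intro n
  obtain ⟨k, hk, h2⟩ := h (n + 1)
  obtain ⟨k, rfl⟩ : ∃ m, k = m + 1 := ⟨k - 1, by omega⟩
  exact ⟨k, by omega, h2⟩

theorem Good.iter {x : ℤ_[5]} (h : Good x) (k : ℕ) : Good (Odo.sh^[k] x) := by
  induction k with
  | zero => exact h
  | succ k ih => rw [Function.iterate_succ_apply']; exact ih.sh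

theorem ae_good (μ : Measure ℤ_[5]) [IsProbabilityMeasure μ] [μ.IsAddHaarMeasure] :
    ∀ᵐ x ∂μ, Good x := by
  unfold Good
  rw [ae_all_iff]
  intro n
  -- the bad set
  set N : Set ℤ_[5] := {x | ∀ k, n ≤ k → digit k x ≠ 2} with hN
  have hbad : {x : ℤ_[5] | ¬ ∃ k, n ≤ k ∧ digit k x = 2} = N := by
    ext x; simp [hN]
  show μ {x : ℤ_[5] | ¬ ∃ k, n ≤ k ∧ digit k x = 2} = 0
  rw [hbad]
  let E : ℕ → Set ℤ_[5] := fun j =>
    {x | digit (n + j) x = 2} ∩ ⋂ k, {x | n ≤ k → k ≠ n + j → digit k x ≠ 2}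
  have hEm : ∀ j, MeasurableSet (E j) := by
    intro j
    refine (measurableSet_eq_fun (digit_meas _) measurable_const).inter
      (MeasurableSet.iInter fun k => ?_)
    by_cases h1 : n ≤ k
    · by_cases h2 : k ≠ n + j
      · simp only [h1, h2, ne_eq, not_false_eq_true, forall_const]
        exact (measurableSet_eq_fun (digit_meas _) measurable_const).compl
      · simp [h2]
    · simp [h1]
  have hdisj : Pairwise (Function.onFun Disjoint E) := by
    intro i j hij
    rw [Function.onFun, Set.disjoint_left]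
    rintro x ⟨h1, -⟩ ⟨-, h2⟩
    rw [Set.mem_iInter] at h2
    exact h2 (n + i) (by omega) (by omega) h1
  have hsum : ∑' j, μ (E j) ≤ 1 := by
    rw [← measure_iUnion hdisj hEm]
    exact prob_le_one
  have hle : ∀ j, μ N ≤ 5 * μ (E j) := by
    intro j
    have hcov : N ⊆ ⋃ d : Fin 5, (fun x => (((2 : ℕ) : ℤ_[5]) - ((d : ℕ) : ℤ_[5])) * 5 ^ (n + j)
        + x) ⁻¹' (E j) := by
      intro x hx
      rw [Set.mem_iUnion]
      refine ⟨⟨digit (n + j) x, digit_lt _ _⟩, ?_⟩
      show _ ∈ E j
      have hm := digit_modify (n + j) x 2 (by norm_num)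
      rw [add_comm x] at hm
      refine ⟨?_, ?_⟩
      · show digit (n + j) _ = 2
        rw [hm (n + j), if_pos rfl]
      · rw [Set.mem_iInter]
        intro k hk1 hk2
        have := hm k
        rw [if_neg hk2] at this
        show digit k _ ≠ 2
        exact fun h => hx k hk1 (this.symm.trans h)
    calc μ N ≤ μ (⋃ d : Fin 5, (fun x => (((2 : ℕ) : ℤ_[5]) - ((d : ℕ) : ℤ_[5])) * 5 ^ (n + j)
        + x) ⁻¹' (E j)) := measure_mono hcov
      _ ≤ ∑ d : Fin 5, μ ((fun x => (((2 : ℕ) : ℤ_[5]) - ((d : ℕ) : ℤ_[5])) * 5 ^ (n + j)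
        + x) ⁻¹' (E j)) := measure_iUnion_fintype_le _ _
      _ = ∑ _d : Fin 5, μ (E j) := by
          congr 1; ext d; rw [measure_preimage_add]
      _ = 5 * μ (E j) := by simp
  have htend : Tendsto (fun j => 5 * μ (E j)) atTop (𝓝 (5 * 0)) := by
    apply ENNReal.Tendsto.const_mul
    · exact ENNReal.tendsto_atTop_zero_of_tsum_ne_top (ne_top_of_le_ne_top ENNReal.one_ne_top hsum)
    · right; norm_num
  rw [mul_zero] at htend
  exact le_antisymm (ge_of_tendsto' htend hle) bot_le

theorem succ_lt {x : ℤ_[5]} (h : dg x < 4) : dg (1 + x) = dg x + 1 ∧ sh (1 + x) = sh x := by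
  apply dg_sh_unique (by omega)
  have := sh_spec x
  push_cast
  linear_combination this

theorem succ_four {x : ℤ_[5]} (h : dg x = 4) : dg (1 + x) = 0 ∧ sh (1 + x) = 1 + sh x := by
  apply dg_sh_unique (by omega)
  have := sh_spec x
  rw [h] at this
  push_cast at this ⊢
  linear_combination this

/-- if the lower `k` digits are 4 -/
theorem carry {x : ℤ_[5]} (k : ℕ) (h : ∀ i, i < k → digit i x = 4) :
    sh^[k] (1 + x) = 1 + sh^[k] x ∧ ∀ i, i < k → digit i (1 + x) = 0 := by
  induction k with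
  | zero => exact ⟨rfl, fun i hi => absurd hi (Nat.not_lt_zero i)⟩
  | succ k ih =>
    obtain ⟨h1, h2⟩ := ih (fun i hi => h i (by omega))
    have h3 := h k (by omega)
    obtain ⟨h4, h5⟩ := succ_four (x := sh^[k] x) h3
    refine ⟨?_, ?_⟩
    · rw [Function.iterate_succ_apply', Function.iterate_succ_apply', h1, h5]
    · intro i hi
      rcases Nat.lt_succ_iff_lt_or_eq.1 hi with hi | rfl
      · exact h2 i hi
      · unfold digit; rw [h1, h4]

theorem carry_stop {x : ℤ_[5]} (m : ℕ) (h : ∀ i, i < m → digit i x = 4) (hm : digit m x < 4) :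
    digit m (1 + x) = digit m x + 1 ∧ ∀ i, m < i → sh^[i] (1 + x) = sh^[i] x := by
  obtain ⟨h1, h2⟩ := carry m h
  obtain ⟨h3, h4⟩ := succ_lt (x := sh^[m] x) hm
  refine ⟨by unfold digit; rw [h1, h3], ?_⟩
  intro i hi
  induction i, hi using Nat.le_induction with
  | base => rw [Function.iterate_succ_apply', Function.iterate_succ_apply', h1, h4]
  | succ i hi ih => rw [Function.iterate_succ_apply', Function.iterate_succ_apply', ih]

/-- The substitution: letter number `j` of the image of `b`. -/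
def lw (b : Bool) (j : ℕ) : Bool := if j = 0 then b else if j = 2 then true else !b

/-- approximations of the letter function -/
noncomputable def ac : ℕ → ℤ_[5] → Bool
  | 0, _ => true
  | k + 1, x => lw (ac k (sh x)) (dg x)

theorem ac_meas (k : ℕ) : Measurable (ac k) := by
  induction k with
  | zero => exact measurable_const
  | succ k ih =>
    have : ac (k + 1) = (fun q : Bool × ℕ => lw q.1 q.2) ∘ fun x => (ac k (sh x), dg x) := rfl
    rw [this]
    exact (measurable_of_countable _).comp ((ih.comp sh_meas).prodMk dg_meas)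

theorem ac_const (n : ℕ) : ∀ x, digit n x = 2 → ∀ k k', n < k → n < k' → ac k x = ac k' x := by
  induction n with
  | zero =>
    intro x hx k k' hk hk'
    obtain ⟨k, rfl⟩ : ∃ m, k = m + 1 := ⟨k - 1, by omega⟩
    obtain ⟨k', rfl⟩ : ∃ m, k' = m + 1 := ⟨k' - 1, by omega⟩
    have : dg x = 2 := hx
    simp [ac, this, lw]
  | succ n ih =>
    intro x hx k k' hk hk'
    obtain ⟨k, rfl⟩ : ∃ m, k = m + 1 := ⟨k - 1, by omega⟩
    obtain ⟨k', rfl⟩ : ∃ m, k' = m + 1 := ⟨k' - 1, by omega⟩
    have := ih (sh x) hx k k' (by omega) (by omega)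
    simp only [ac, this]

/-- the set of points with letter `true` -/
def Aset : Set ℤ_[5] := {x | ∃ N, ∀ k, N ≤ k → ac k x = true}

theorem Aset_meas : MeasurableSet Aset := by
  have : Aset = ⋃ N : ℕ, ⋂ k : ℕ, {x | N ≤ k → ac k x = true} := by
    ext x; simp [Aset]
  rw [this]
  refine MeasurableSet.iUnion fun N => MeasurableSet.iInter fun k => ?_
  by_cases h : N ≤ k
  · simp only [h, forall_const]
    exact measurableSet_eq_fun (ac_meas k) measurable_const
  · simp [h]

open Classical in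
/-- the letter function -/
noncomputable def lt (x : ℤ_[5]) : Bool := if x ∈ Aset then true else false

theorem lt_meas : Measurable lt := Measurable.ite Aset_meas measurable_const measurable_const

theorem lt_eq {n : ℕ} {x : ℤ_[5]} (h : digit n x = 2) {k : ℕ} (hk : n < k) : lt x = ac k x := by
  have hc := ac_const n x h
  unfold lt
  split_ifs with hA
  · obtain ⟨N, hN⟩ := hA
    rw [hc k (max N k) hk (by omega), hN _ (le_max_left _ _)]
  · by_contra hne
    have : ac k x = true := by
      cases h' : ac k x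
      · exact absurd h'.symm hne
      · rfl
    exact hA ⟨k, fun k' hk' => by rw [hc k' k (by omega) hk, this]⟩

theorem lt_rec {x : ℤ_[5]} (h : Good x) : lt x = lw (lt (sh x)) (dg x) := by
  obtain ⟨n, -, hn⟩ := h 0
  obtain ⟨m, -, hm⟩ := h.sh 0
  rw [lt_eq hn (k := n + m + 2) (by omega), lt_eq hm (k := n + m + 1) (by omega)]
  rfl

end Pool.Agent.Helper61.Odo
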