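import Mathlib

/-! Quaternion preliminaries: traces of words, frames, intertwiners, rigidity. -/

set_option autoImplicit false
open scoped Quaternion

namespace Pool.Agent.Helper61.Odo

theorem re_mul_comm (P Q : ℍ) : (P * Q).re = (Q * P).re := by
  simp only [Quaternion.re_mul]; ring

theorem normSq_of_unit {A : ℍ} (hA : ‖A‖ = 1) :
    A.re ^ 2 + A.imI ^ 2 + A.imJ ^ 2 + A.imK ^ 2 = 1 := by
  have h : Quaternion.normSq A = 1 := by
    rw [Quaternion.normSq_eq_norm_mul_self, hA]; norm_num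
  rw [Quaternion.normSq_def'] at h
  linarith

theorem sq_unit {A : ℍ} (hA : ‖A‖ = 1) : A * A = (2 * A.re) • A - 1 := by
  have h := normSq_of_unit hA
  ext
  · simp [Quaternion.re_mul]; nlinarith
  · simp [Quaternion.imI_mul]; ring
  · simp [Quaternion.imJ_mul]; ring
  · simp [Quaternion.imK_mul]; ring

theorem anticomm (A B : ℍ) :
    A * B + B * A = (2 * A.re) • B + (2 * B.re) • A
      + (2 * (A * B).re - 4 * A.re * B.re) • (1 : ℍ) := by
  ext
  · simp only [Quaternion.re_mul, Quaternion.re_add, Quaternion.re_smul, Quaternion.re_one,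
      smul_eq_mul]; ring
  · simp only [Quaternion.imI_mul, Quaternion.imI_add, Quaternion.imI_smul, Quaternion.imI_one,
      smul_eq_mul]; ring
  · simp only [Quaternion.imJ_mul, Quaternion.imJ_add, Quaternion.imJ_smul, Quaternion.imJ_one,
      smul_eq_mul]; ring
  · simp only [Quaternion.imK_mul, Quaternion.imK_add, Quaternion.imK_smul, Quaternion.imK_one,
      smul_eq_mul]; ring

/-- The first block word. -/
noncomputable def wA (A B : ℍ) : ℍ := B * B * A * B * A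
/-- The second block word. -/
noncomputable def wB (A B : ℍ) : ℍ := A * A * A * A * B

theorem wA_eq {A B : ℍ} (hA : ‖A‖ = 1) (hB : ‖B‖ = 1) :
    wA A B = (2 * (B * A).re * (2 * B.re)) • (B * A) - (2 * (B * A).re) • A - B := by
  have hD : ‖B * A‖ = 1 := by rw [norm_mul, hA, hB, one_mul]
  have h1 := sq_unit hD
  have h2 := sq_unit hB
  have : wA A B = B * ((B * A) * (B * A)) := by unfold wA; simp only [mul_assoc]
  rw [this, h1, mul_sub, mul_one, mul_smul_comm, ← mul_assoc, h2, sub_mul, smul_mul_assoc,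
    one_mul, smul_sub, smul_smul]

theorem wB_eq {A B : ℍ} (hA : ‖A‖ = 1) :
    wB A B = ((2 * A.re) ^ 3 - 2 * (2 * A.re)) • (A * B) - ((2 * A.re) ^ 2 - 1) • B := by
  have h1 := sq_unit hA
  have h3 : A * A * A = ((2 * A.re) ^ 2 - 1) • A - (2 * A.re) • (1 : ℍ) := by
    rw [h1, sub_mul, smul_mul_assoc, h1, one_mul]
    module
  have h4 : A * A * A * A = ((2 * A.re) ^ 3 - 2 * (2 * A.re)) • A
      - ((2 * A.re) ^ 2 - 1) • (1 : ℍ) := by
    rw [h3, sub_mul, smul_mul_assoc, h1, smul_mul_assoc, one_mul]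
    module
  unfold wB
  rw [h4, sub_mul, smul_mul_assoc, smul_mul_assoc, one_mul]

/-- first trace polynomial (without sign) -/
noncomputable def f1 (x y z : ℝ) : ℝ := y * z ^ 2 - x * z - y
noncomputable def f2 (x y z : ℝ) : ℝ := x ^ 3 * z - 2 * x * z - x ^ 2 * y + y
noncomputable def f3 (x y z : ℝ) : ℝ :=
  -x^5*y*z + x^4*y^2*z^2 - x^4*z^2 + x^4 - x^3*y^3*z + 5*x^3*y*z - 3*x^2*y^2*z^2 + x^2*y^2
    + 3*x^2*z^2 - 4*x^2 + 2*x*y^3*z - 5*x*y*z + y^2*z^2 - y^2 - z^2 + 2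

theorem tr_wA {A B : ℍ} (hA : ‖A‖ = 1) (hB : ‖B‖ = 1) :
    2 * (wA A B).re = f1 (2 * A.re) (2 * B.re) (2 * (A * B).re) := by
  rw [wA_eq hA hB, re_mul_comm B A]
  simp only [Quaternion.re_sub, Quaternion.re_smul, smul_eq_mul]
  rw [re_mul_comm B A]
  unfold f1
  ring

theorem tr_wB {A B : ℍ} (hA : ‖A‖ = 1) :
    2 * (wB A B).re = f2 (2 * A.re) (2 * B.re) (2 * (A * B).re) := by
  rw [wB_eq hA]
  simp only [Quaternion.re_sub, Quaternion.re_smul, smul_eq_mul]
  unfold f2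
  ring

theorem re_AAB {A B : ℍ} (hA : ‖A‖ = 1) : (A * (A * B)).re = 2 * A.re * (A * B).re - B.re := by
  rw [← mul_assoc, sq_unit hA, sub_mul, smul_mul_assoc, one_mul]
  simp

theorem re_BAAB {A B : ℍ} (hA : ‖A‖ = 1) (hB : ‖B‖ = 1) :
    (B * A * (A * B)).re = 4 * A.re * B.re * (A * B).re - 2 * A.re ^ 2 - 2 * B.re ^ 2 + 1 := by
  have h : (B * A * (A * B)).re = (A * A * (B * B)).re := by
    have e1 : B * A * (A * B) = B * (A * A * B) := by simp only [mul_assoc]
    rw [e1, re_mul_comm]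
    simp only [mul_assoc]
  rw [h, sq_unit hA, sq_unit hB]
  simp only [sub_mul, mul_sub, smul_mul_assoc, mul_smul_comm, one_mul, mul_one, Quaternion.re_sub,
    Quaternion.re_smul, smul_eq_mul, Quaternion.re_one]
  ring

theorem tr_wAB {A B : ℍ} (hA : ‖A‖ = 1) (hB : ‖B‖ = 1) :
    2 * (wA A B * wB A B).re = f3 (2 * A.re) (2 * B.re) (2 * (A * B).re) := by
  rw [wA_eq hA hB, wB_eq hA]
  have e1 := re_BAAB hA hB
  have e2 : (B * A * B).re = 2 * B.re * (A * B).re - A.re := by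
    rw [mul_assoc, re_mul_comm, mul_assoc, sq_unit hB, mul_sub, mul_one, mul_smul_comm]
    simp
  have e3 := re_AAB (B := B) hA
  have e4 : (B * (A * B)).re = 2 * B.re * (A * B).re - A.re := by
    rw [← mul_assoc]; exact e2
  have e5 : (B * B).re = 2 * B.re ^ 2 - 1 := by
    rw [sq_unit hB]; simp; ring
  simp only [sub_mul, mul_sub, smul_mul_assoc, mul_smul_comm, Quaternion.re_sub,
    Quaternion.re_smul, smul_eq_mul, e1, e2, e3, e4, e5, re_mul_comm B A]
  unfold f3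
  ring

/-! ### frames -/

/-- an anticommuting pair of square roots of `-1` -/
structure Frame (e1 e2 : ℍ) : Prop where
  s1 : e1 * e1 = -1
  s2 : e2 * e2 = -1
  ac : e2 * e1 = -(e1 * e2)

theorem re_zero_of_sq {e : ℍ} (h : e * e = -1) : e.re = 0 := by
  have h0 := congrArg QuaternionAlgebra.re h
  have h1 := congrArg QuaternionAlgebra.imI h
  have h2 := congrArg QuaternionAlgebra.imJ h
  have h3 := congrArg QuaternionAlgebra.imK h
  simp only [Quaternion.re_mul, Quaternion.imI_mul, Quaternion.imJ_mul, Quaternion.imK_mul,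
    Quaternion.re_neg, Quaternion.imI_neg, Quaternion.imJ_neg, Quaternion.imK_neg,
    Quaternion.re_one, Quaternion.imI_one, Quaternion.imJ_one, Quaternion.imK_one] at h0 h1 h2 h3
  by_contra hne
  have i1 : e.imI = 0 := by
    have : e.re * e.imI = 0 := by linarith
    exact (mul_eq_zero.mp this).resolve_left hne
  have i2 : e.imJ = 0 := by
    have : e.re * e.imJ = 0 := by linarith
    exact (mul_eq_zero.mp this).resolve_left hne
  have i3 : e.imK = 0 := by
    have : e.re * e.imK = 0 := by linarith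
    exact (mul_eq_zero.mp this).resolve_left hne
  rw [i1, i2, i3] at h0
  nlinarith [sq_nonneg e.re]

theorem norm_of_sq {e : ℍ} (h : e * e = -1) : ‖e‖ = 1 := by
  have h1 : ‖e‖ * ‖e‖ = 1 := by rw [← norm_mul, h, norm_neg, norm_one]
  nlinarith [norm_nonneg e]

/-- The averaging map. -/
noncomputable def av (e1 e2 e1' e2' u : ℍ) : ℍ :=
  u - e1' * u * e1 - e2' * u * e2 - (e1' * e2') * u * (e1 * e2)

theorem av_left1 {e1 e2 e1' e2' : ℍ} (h : Frame e1 e2) (h' : Frame e1' e2') (u : ℍ) :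
    e1' * av e1 e2 e1' e2' u = av e1 e2 e1' e2' u * e1 := by
  have a1 : e1' * (e1' * u * e1) = -(u * e1) := by
    rw [← mul_assoc, ← mul_assoc, h'.s1]; simp
  have a2 : e1' * (e1' * e2' * u * (e1 * e2)) = -(e2' * u * (e1 * e2)) := by
    have : e1' * (e1' * e2' * u * (e1 * e2)) = (e1' * e1') * (e2' * u * (e1 * e2)) := by
      simp only [mul_assoc]
    rw [this, h'.s1]; simp
  have b1 : e1' * u * e1 * e1 = -(e1' * u) := by
    rw [mul_assoc, h.s1]; simp
  have b2 : e1' * e2' * u * (e1 * e2) * e1 = e1' * e2' * u * e2 := by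
    have : (e1 * e2) * e1 = e2 := by
      rw [mul_assoc, h.ac, mul_neg, ← mul_assoc, h.s1]; simp
    rw [mul_assoc, this]
  have b3 : e2' * u * e2 * e1 = -(e2' * u * (e1 * e2)) := by
    rw [mul_assoc, h.ac]; simp
  unfold av
  rw [mul_sub, mul_sub, mul_sub, a1, a2, sub_mul, sub_mul, sub_mul, b1, b2, b3]
  simp only [mul_assoc]
  abel

theorem av_left2 {e1 e2 e1' e2' : ℍ} (h : Frame e1 e2) (h' : Frame e1' e2') (u : ℍ) :
    e2' * av e1 e2 e1' e2' u = av e1 e2 e1' e2' u * e2 := by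
  have a1 : e2' * (e2' * u * e2) = -(u * e2) := by
    rw [← mul_assoc, ← mul_assoc, h'.s2]; simp
  have c0 : e2' * (e1' * e2') = e1' := by
    rw [← mul_assoc, h'.ac, neg_mul, mul_assoc, h'.s2]; simp
  have a2 : e2' * (e1' * e2' * u * (e1 * e2)) = e1' * u * (e1 * e2) := by
    have : e2' * (e1' * e2' * u * (e1 * e2)) = (e2' * (e1' * e2')) * (u * (e1 * e2)) := by
      simp only [mul_assoc]
    rw [this, c0, mul_assoc]
  have a3 : e2' * (e1' * u * e1) = -(e1' * e2' * u * e1) := by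
    rw [← mul_assoc, ← mul_assoc, h'.ac]; simp
  have b1 : e2' * u * e2 * e2 = -(e2' * u) := by
    rw [mul_assoc, h.s2]; simp
  have b2 : e1' * e2' * u * (e1 * e2) * e2 = -(e1' * e2' * u * e1) := by
    have : (e1 * e2) * e2 = -e1 := by
      rw [mul_assoc, h.s2]; simp
    rw [mul_assoc, this]; simp
  unfold av
  rw [mul_sub, mul_sub, mul_sub, a1, a2, a3, sub_mul, sub_mul, sub_mul, b1, b2]
  simp only [mul_assoc]
  abel

/-- basis quaternions -/
noncomputable def qi : ℍ := ⟨0, 1, 0, 0⟩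
/-- basis quaternions -/
noncomputable def qj : ℍ := ⟨0, 0, 1, 0⟩
/-- basis quaternions -/
noncomputable def qk : ℍ := ⟨0, 0, 0, 1⟩

theorem qi_re : qi.re = 0 := rfl
theorem qi_i : qi.imI = 1 := rfl
theorem qi_j : qi.imJ = 0 := rfl
theorem qi_k : qi.imK = 0 := rfl
theorem qj_re : qj.re = 0 := rfl
theorem qj_i : qj.imI = 0 := rfl
theorem qj_j : qj.imJ = 1 := rfl
theorem qj_k : qj.imK = 0 := rfl
theorem qk_re : qk.re = 0 := rfl
theorem qk_i : qk.imI = 0 := rfl
theorem qk_j : qk.imJ = 0 := rfl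
theorem qk_k : qk.imK = 1 := rfl

theorem key_sum (e : ℍ) (he : e.re = 0) :
    e - qi * e * qi - qj * e * qj - qk * e * qk = 0 := by
  ext <;> simp [he, qi_re, qi_i, qi_j, qi_k, qj_re, qj_i, qj_j, qj_k, qk_re, qk_i, qk_j, qk_k]

theorem one_sum : (1 : ℍ) - qi * qi - qj * qj - qk * qk = ((4 : ℝ) : ℍ) := by
  ext <;> simp [qi_re, qi_i, qi_j, qi_k, qj_re, qj_i, qj_j, qj_k, qk_re, qk_i, qk_j, qk_k]
  norm_num

theorem av_sum (e1 e2 e1' e2' : ℍ) (h1 : e1.re = 0) (h2 : e2.re = 0) (h3 : (e1 * e2).re = 0) :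
    av e1 e2 e1' e2' 1 - av e1 e2 e1' e2' qi * qi
      - av e1 e2 e1' e2' qj * qj
      - av e1 e2 e1' e2' qk * qk = ((4 : ℝ) : ℍ) := by
  have k1 : e1' * (e1 - qi * e1 * qi - qj * e1 * qj - qk * e1 * qk) = 0 := by
    rw [key_sum e1 h1, mul_zero]
  have k2 : e2' * (e2 - qi * e2 * qi - qj * e2 * qj - qk * e2 * qk) = 0 := by
    rw [key_sum e2 h2, mul_zero]
  have k3 : (e1' * e2') * ((e1 * e2) - qi * (e1 * e2) * qi - qj * (e1 * e2) * qj
      - qk * (e1 * e2) * qk) = 0 := by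
    rw [key_sum (e1 * e2) h3, mul_zero]
  have : av e1 e2 e1' e2' 1 - av e1 e2 e1' e2' qi * qi
      - av e1 e2 e1' e2' qj * qj - av e1 e2 e1' e2' qk * qk
      = (1 - qi * qi - qj * qj - qk * qk)
        - e1' * (e1 - qi * e1 * qi - qj * e1 * qj - qk * e1 * qk)
        - e2' * (e2 - qi * e2 * qi - qj * e2 * qj - qk * e2 * qk)
        - (e1' * e2') * ((e1 * e2) - qi * (e1 * e2) * qi - qj * (e1 * e2) * qj
      - qk * (e1 * e2) * qk) := by
    unfold av
    noncomm_ring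
  rw [this, k1, k2, k3, one_sum]
  simp

theorem Frame.re1 {e1 e2 : ℍ} (h : Frame e1 e2) : e1.re = 0 := re_zero_of_sq h.s1
theorem Frame.re2 {e1 e2 : ℍ} (h : Frame e1 e2) : e2.re = 0 := re_zero_of_sq h.s2
theorem Frame.re3 {e1 e2 : ℍ} (h : Frame e1 e2) : (e1 * e2).re = 0 := by
  have h1 := re_mul_comm e1 e2
  rw [h.ac, Quaternion.re_neg] at h1
  linarith
theorem Frame.s3 {e1 e2 : ℍ} (h : Frame e1 e2) : (e1 * e2) * (e1 * e2) = -1 := by
  have : (e1 * e2) * (e1 * e2) = e1 * (e2 * e1) * e2 := by simp only [mul_assoc]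
  rw [this, h.ac, mul_neg, neg_mul]
  have : e1 * (e1 * e2) * e2 = (e1 * e1) * (e2 * e2) := by simp only [mul_assoc]
  rw [this, h.s1, h.s2]; simp

theorem exists_intertwiner {e1 e2 e1' e2' : ℍ} (h : Frame e1 e2) (h' : Frame e1' e2') :
    ∃ c : ℍ, ‖c‖ = 1 ∧ e1' * c = c * e1 ∧ e2' * c = c * e2 := by
  have hex : ∃ u : ℍ, av e1 e2 e1' e2' u ≠ 0 := by
    by_contra hcon
    push Not at hcon
    have hs := av_sum e1 e2 e1' e2' h.re1 h.re2 h.re3
    rw [hcon, hcon, hcon, hcon] at hs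
    have h4 := congrArg QuaternionAlgebra.re hs
    simp at h4
  obtain ⟨u, hu⟩ := hex
  have hn : ‖av e1 e2 e1' e2' u‖ ≠ 0 := norm_ne_zero_iff.mpr hu
  refine ⟨(‖av e1 e2 e1' e2' u‖)⁻¹ • av e1 e2 e1' e2' u, ?_, ?_, ?_⟩
  · rw [norm_smul, norm_inv, norm_norm, inv_mul_cancel₀ hn]
  · rw [mul_smul_comm, av_left1 h h', smul_mul_assoc]
  · rw [mul_smul_comm, av_left2 h h', smul_mul_assoc]

theorem pure_anti {P Q : ℍ} (hP : P.re = 0) (hQ : Q.re = 0) :
    P * Q + Q * P = (2 * (P * Q).re) • (1 : ℍ) := by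
  rw [anticomm, hP, hQ]; simp

theorem av_self {e1 e2 : ℍ} (h : Frame e1 e2) (d : ℍ) :
    av e1 e2 e1 e2 d = (4 * d.re) • (1 : ℍ) := by
  set m := av e1 e2 e1 e2 d with hm
  have c1 : e1 * m = m * e1 := av_left1 h h d
  have c2 : e2 * m = m * e2 := av_left2 h h d
  have hre : m.re = 4 * d.re := by
    have r1 : (e1 * d * e1).re = -d.re := by
      rw [re_mul_comm, ← mul_assoc, h.s1]; simp
    have r2 : (e2 * d * e2).re = -d.re := by
      rw [re_mul_comm, ← mul_assoc, h.s2]; simp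
    have r3 : ((e1 * e2) * d * (e1 * e2)).re = -d.re := by
      rw [re_mul_comm, ← mul_assoc, h.s3]; simp
    rw [hm]; unfold av
    rw [Quaternion.re_sub, Quaternion.re_sub, Quaternion.re_sub, r1, r2, r3]
    ring
  -- the pure part
  set m' := m - m.re • (1 : ℍ) with hm'
  have p0 : m'.re = 0 := by rw [hm']; simp
  have c1' : e1 * m' = m' * e1 := by rw [hm', mul_sub, sub_mul, c1]; simp
  have c2' : e2 * m' = m' * e2 := by rw [hm', mul_sub, sub_mul, c2]; simp
  have a1 := pure_anti p0 h.re1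
  rw [c1'] at a1
  have a2 : m' * e1 = ((m' * e1).re) • (1 : ℍ) := by
    have : (2 : ℝ) • (m' * e1) = (2 : ℝ) • ((m' * e1).re • (1 : ℍ)) := by
      rw [two_smul, a1, smul_smul]
    exact smul_right_injective ℍ (two_ne_zero (α := ℝ)) this
  have a3 : m' = -((m' * e1).re • e1) := by
    have : m' * e1 * e1 = (m' * e1).re • e1 := by
      conv_lhs => rw [a2]
      simp
    rw [mul_assoc, h.s1, mul_neg, mul_one] at this
    rw [← this, neg_neg]
  set r := (m' * e1).re with hr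
  have a4 : r = 0 := by
    rw [a3] at c2'
    rw [mul_neg, mul_smul_comm, h.ac, neg_mul, smul_mul_assoc, smul_neg] at c2'
    have h5 : (2 * r) • (e1 * e2) = 0 := by
      have : r • (e1 * e2) + r • (e1 * e2) = 0 := by
        have h6 := c2'
        rw [neg_neg] at h6
        nth_rewrite 1 [h6]
        simp
      rw [two_mul, add_smul]; exact this
    have h7 : e1 * e2 ≠ 0 := by
      intro h0
      have := h.s3
      rw [h0] at this
      simp at this
    rcases smul_eq_zero.mp h5 with h8 | h8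
    · linarith
    · exact absurd h8 h7
  rw [a4, zero_smul, neg_zero] at a3
  have : m = m.re • (1 : ℍ) := by
    have h9 : m - m.re • (1 : ℍ) = 0 := by rw [← hm']; exact a3
    exact sub_eq_zero.mp h9
  rw [this, hre]

theorem rigid {e1 e2 d : ℍ} (h : Frame e1 e2) (hd : ‖d‖ = 1) {ε : ℝ}
    (h1 : ‖e1 * d - d * e1‖ ≤ ε) (h2 : ‖e2 * d - d * e2‖ ≤ ε) :
    ‖d - 1‖ ≤ 2 * ε ∨ ‖d + 1‖ ≤ 2 * ε := by
  have n1 := norm_of_sq h.s1
  have n2 := norm_of_sq h.s2
  have n3 := norm_of_sq h.s3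
  have h3 : ‖(e1 * e2) * d - d * (e1 * e2)‖ ≤ 2 * ε := by
    have : (e1 * e2) * d - d * (e1 * e2) = e1 * (e2 * d - d * e2) + (e1 * d - d * e1) * e2 := by
      noncomm_ring
    rw [this]
    calc _ ≤ ‖e1 * (e2 * d - d * e2)‖ + ‖(e1 * d - d * e1) * e2‖ := norm_add_le _ _
      _ ≤ 2 * ε := by rw [norm_mul, norm_mul, n1, n2]; linarith
  have t1 : ∀ e : ℍ, e * e = -1 → ‖d + e * d * e‖ = ‖e * d - d * e‖ := by
    intro e he
    have : d + e * d * e = -(e * (e * d - d * e)) := by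
      rw [mul_sub, ← mul_assoc, he]; noncomm_ring
    rw [this, norm_neg, norm_mul, norm_of_sq he, one_mul]
  have hav := av_self h d
  have h4 : (4 : ℝ) • (d - d.re • (1 : ℍ)) =
      (d + e1 * d * e1) + (d + e2 * d * e2) + (d + (e1 * e2) * d * (e1 * e2)) := by
    rw [smul_sub, smul_smul, ← hav]
    unfold av
    module
  have h5 : ‖d - d.re • (1 : ℍ)‖ ≤ ε := by
    have h6 : ‖(4 : ℝ) • (d - d.re • (1 : ℍ))‖ ≤ 4 * ε := by
      rw [h4]
      calc _ ≤ ‖d + e1 * d * e1‖ + ‖d + e2 * d * e2‖ + ‖d + (e1 * e2) * d * (e1 * e2)‖ :=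
            norm_add₃_le
        _ ≤ 4 * ε := by rw [t1 e1 h.s1, t1 e2 h.s2, t1 _ h.s3]; linarith
    rw [norm_smul] at h6
    norm_num at h6
    linarith
  have h7 : 1 - |d.re| ≤ ε := by
    have : ‖d‖ ≤ ‖d - d.re • (1 : ℍ)‖ + ‖d.re • (1 : ℍ)‖ := by
      calc ‖d‖ = ‖(d - d.re • (1 : ℍ)) + d.re • (1 : ℍ)‖ := by rw [sub_add_cancel]
        _ ≤ _ := norm_add_le _ _
    rw [hd, norm_smul, norm_one, mul_one, Real.norm_eq_abs] at this
    linarith
  have h8 : |d.re| ≤ 1 := by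
    have := normSq_of_unit hd
    rw [abs_le]
    constructor <;> nlinarith [sq_nonneg d.imI, sq_nonneg d.imJ, sq_nonneg d.imK]
  rcases le_total 0 d.re with hs | hs
  · left
    rw [abs_of_nonneg hs] at h7 h8
    have : d - 1 = (d - d.re • (1 : ℍ)) + (d.re - 1) • (1 : ℍ) := by module
    rw [this]
    calc _ ≤ ‖d - d.re • (1 : ℍ)‖ + ‖(d.re - 1) • (1 : ℍ)‖ := norm_add_le _ _
      _ ≤ 2 * ε := by
        rw [norm_smul, norm_one, mul_one, Real.norm_eq_abs, abs_of_nonpos (by linarith)]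
        linarith
  · right
    rw [abs_of_nonpos hs] at h7 h8
    have : d + 1 = (d - d.re • (1 : ℍ)) + (d.re + 1) • (1 : ℍ) := by module
    rw [this]
    calc _ ≤ ‖d - d.re • (1 : ℍ)‖ + ‖(d.re + 1) • (1 : ℍ)‖ := norm_add_le _ _
      _ ≤ 2 * ε := by
        rw [norm_smul, norm_one, mul_one, Real.norm_eq_abs, abs_of_nonneg (by linarith)]
        linarith

end Pool.Agent.Helper61.Odo
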