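import Mathlib
import Pool.Agent.Helper61.Odo.Quat

/-! The trace map and its contraction property near the attracting fixed point. -/

set_option autoImplicit false
set_option linter.unusedVariables false
open Topology Filter

namespace Pool.Agent.Helper61.Odo

/-- the golden mean coordinate -/
noncomputable def zs : ℝ := (√5 - 1) / 2
/-- the first trace at the fixed point -/
noncomputable def xs : ℝ := (-(1 + zs) + √((1 + zs) ^ 2 + 4)) / 2

theorem zs_rel : zs ^ 2 = 1 - zs := by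
  have h : √5 ^ 2 = (5 : ℝ) := Real.sq_sqrt (by norm_num)
  unfold zs
  nlinarith

theorem xs_rel : xs ^ 2 = 1 - (1 + zs) * xs := by
  have h : √((1 + zs) ^ 2 + 4) ^ 2 = (1 + zs) ^ 2 + 4 := Real.sq_sqrt (by positivity)
  unfold xs
  nlinarith

theorem zs_lo : 0.618033 < zs := by
  have h : (2.236067 : ℝ) < √5 := by
    apply Real.lt_sqrt_of_sq_lt; norm_num
  unfold zs; linarith

theorem zs_hi : zs < 0.618034 := by
  have h : √5 < (2.236068 : ℝ) := by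
    rw [Real.sqrt_lt' (by norm_num)]; norm_num
  unfold zs; linarith

theorem xs_lo : 0.47725 < xs := by
  have h1 := zs_lo
  have h2 := zs_hi
  have h : (0.9545 + (1 + zs) : ℝ) < √((1 + zs) ^ 2 + 4) := by
    apply Real.lt_sqrt_of_sq_lt
    nlinarith
  unfold xs; linarith

theorem xs_hi : xs < 0.47727 := by
  have h1 := zs_lo
  have h2 := zs_hi
  have h : √((1 + zs) ^ 2 + 4) < (0.95454 + (1 + zs) : ℝ) := by
    rw [Real.sqrt_lt' (by linarith)]
    nlinarith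
  unfold xs; linarith

/-- divided difference -/
noncomputable def g11 (x y z u v w : ℝ) : ℝ :=
  z

/-- divided difference -/
noncomputable def g12 (x y z u v w : ℝ) : ℝ :=
  -z^2 + 1

/-- divided difference -/
noncomputable def g13 (x y z u v w : ℝ) : ℝ :=
  -z*v + u - v*w

/-- divided difference -/
noncomputable def g21 (x y z u v w : ℝ) : ℝ :=
  -x^2*z + x*y - x*z*u + y*u - z*u^2 + 2*z

/-- divided difference -/
noncomputable def g22 (x y z u v w : ℝ) : ℝ :=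
  u^2 - 1

/-- divided difference -/
noncomputable def g23 (x y z u v w : ℝ) : ℝ :=
  -u^3 + 2*u

/-- divided difference -/
noncomputable def g31 (x y z u v w : ℝ) : ℝ :=
  -x^4*y*z + x^3*y^2*z^2 - x^3*y*z*u - x^3*z^2 + x^3 - x^2*y^3*z + x^2*y^2*z^2*u - x^2*y*z*u^2 + 5*x^2*y*z - x^2*z^2*u + x^2*u - x*y^3*z*u + x*y^2*z^2*u^2 - 3*x*y^2*z^2 + x*y^2 - x*y*z*u^3 + 5*x*y*z*u - x*z^2*u^2 + 3*x*z^2 + x*u^2 - 4*x - y^3*z*u^2 + 2*y^3*z + y^2*z^2*u^3 - 3*y^2*z^2*u + y^2*u - y*z*u^4 + 5*y*z*u^2 - 5*y*z - z^2*u^3 + 3*z^2*u + u^3 - 4*u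

/-- divided difference -/
noncomputable def g32 (x y z u v w : ℝ) : ℝ :=
  -y^2*z*u^3 + 2*y^2*z*u + y*z^2*u^4 - 3*y*z^2*u^2 + y*z^2 - y*z*u^3*v + 2*y*z*u*v + y*u^2 - y + z^2*u^4*v - 3*z^2*u^2*v + z^2*v - z*u^5 - z*u^3*v^2 + 5*z*u^3 + 2*z*u*v^2 - 5*z*u + u^2*v - v

/-- divided difference -/
noncomputable def g33 (x y z u v w : ℝ) : ℝ :=
  z*u^4*v^2 - z*u^4 - 3*z*u^2*v^2 + 3*z*u^2 + z*v^2 - z - u^5*v + u^4*v^2*w - u^4*w - u^3*v^3 + 5*u^3*v - 3*u^2*v^2*w + 3*u^2*w + 2*u*v^3 - 5*u*v + v^2*w - w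

theorem dd1 (x y z u v w : ℝ) : (-f1 x y z) - (-f1 u v w) =
    g11 x y z u v w * (x - u) + g12 x y z u v w * (y - v) + g13 x y z u v w * (z - w) := by
  unfold f1 g11 g12 g13
  ring

theorem dd2 (x y z u v w : ℝ) : (-f2 x y z) - (-f2 u v w) =
    g21 x y z u v w * (x - u) + g22 x y z u v w * (y - v) + g23 x y z u v w * (z - w) := by
  unfold f2 g21 g22 g23
  ring

theorem dd3 (x y z u v w : ℝ) : f3 x y z - (f3 u v w) =
    g31 x y z u v w * (x - u) + g32 x y z u v w * (y - v) + g33 x y z u v w * (z - w) := by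
  unfold f3 g31 g32 g33
  ring

theorem M11 : g11 xs (xs * zs) zs xs (xs * zs) zs = zs := by
  unfold g11
  linear_combination (0) * xs_rel + (0) * zs_rel

theorem M12 : g12 xs (xs * zs) zs xs (xs * zs) zs = zs := by
  unfold g12
  linear_combination (0) * xs_rel + (-1) * zs_rel

theorem M13 : g13 xs (xs * zs) zs xs (xs * zs) zs = 2*xs*zs - xs := by
  unfold g13
  linear_combination (0) * xs_rel + (-2*xs) * zs_rel

theorem fix1 : -f1 xs (xs * zs) zs = xs := by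
  unfold f1
  linear_combination (0) * xs_rel + (-xs*zs + xs) * zs_rel

theorem M21 : g21 xs (xs * zs) zs xs (xs * zs) zs = xs + zs := by
  unfold g21
  linear_combination (-zs) * xs_rel + (xs) * zs_rel

theorem M22 : g22 xs (xs * zs) zs xs (xs * zs) zs = -xs*zs - xs := by
  unfold g22
  linear_combination (1) * xs_rel + (0) * zs_rel

theorem M23 : g23 xs (xs * zs) zs xs (xs * zs) zs = -xs*zs - xs + zs + 1 := by
  unfold g23
  linear_combination (-xs + zs + 1) * xs_rel + (-xs) * zs_rel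

theorem fix2 : -f2 xs (xs * zs) zs = xs*zs := by
  unfold f2
  linear_combination (0) * xs_rel + (0) * zs_rel

theorem M31 : g31 xs (xs * zs) zs xs (xs * zs) zs = -5*xs + zs - 1 := by
  unfold g31
  linear_combination (xs^3*zs^4 - 5*xs^3*zs^2 - xs^2*zs^5 - xs^2*zs^4 + 5*xs^2*zs^3 + 5*xs^2*zs^2 + xs*zs^6 + 2*xs*zs^5 - 7*xs*zs^4 - 10*xs*zs^3 + 3*xs*zs^2 + 4*xs - zs^7 - 3*zs^6 + 4*zs^5 + 16*zs^4 + 12*zs^3 + 2*zs^2 - 4*zs - 4) * xs_rel + (xs*zs^6 + 3*xs*zs^5 - 2*xs*zs^4 - 13*xs*zs^3 - 24*xs*zs^2 - 13*xs*zs - 5*xs - zs^5 - 2*zs^4 + 5*zs^3 + 9*zs^2 + 8*zs + 3) * zs_rel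

theorem M32 : g32 xs (xs * zs) zs xs (xs * zs) zs = -xs*zs - xs - zs := by
  unfold g32
  linear_combination (-xs^3*zs^3 - xs^3*zs + xs^2*zs^4 + xs^2*zs^3 + xs^2*zs^2 + xs^2*zs - xs*zs^5 - 2*xs*zs^4 - 3*xs*zs^3 - 2*xs*zs^2 + 5*xs*zs + zs^6 + 3*zs^5 + 6*zs^4 + 6*zs^3 - 2*zs^2 - 4*zs) * xs_rel + (-xs*zs^5 - 3*xs*zs^4 - 8*xs*zs^3 - 9*xs*zs^2 - 4*xs*zs - xs + zs^4 + 2*zs^3 + 5*zs^2 + 3*zs) * zs_rel

theorem M33 : g33 xs (xs * zs) zs xs (xs * zs) zs = 4*xs - 3*zs - 1 := by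
  unfold g33
  linear_combination (xs^4*zs^3 - xs^4*zs - xs^3*zs^4 - xs^3*zs^3 + xs^3*zs^2 + xs^3*zs + xs^2*zs^5 + 2*xs^2*zs^4 - 3*xs^2*zs^3 - 2*xs^2*zs^2 + xs^2*zs - xs*zs^6 - 3*xs*zs^5 + 4*xs*zs^3 + 2*xs*zs^2 + zs^7 + 4*zs^6 + 4*zs^5 - 2*zs^4 - 7*zs^3 - 4*zs^2 + 2*zs) * xs_rel + (-xs*zs^6 - 4*xs*zs^5 - 6*xs*zs^4 - 3*xs*zs^3 + 6*xs*zs^2 + 6*xs*zs + 4*xs + zs^5 + 3*zs^4 + 2*zs^3 - zs^2 - 4*zs - 1) * zs_rel

theorem fix3 : f3 xs (xs * zs) zs = zs := by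
  unfold f3
  linear_combination (-xs^4*zs^2 + xs^3*zs^3 + xs^3*zs^2 - 2*xs^2*zs^4 - 2*xs^2*zs^3 + 3*xs^2*zs^2 + xs^2 + 2*xs*zs^5 + 4*xs*zs^4 - 2*xs*zs^2 - xs*zs - xs - 2*zs^6 - 6*zs^5 - 5*zs^4 + 3*zs^2 + 2*zs - 2) * xs_rel + (2*xs*zs^5 + 6*xs*zs^4 + 9*xs*zs^3 + 6*xs*zs^2 - xs - 2*zs^4 - 4*zs^3 - 3*zs^2 - zs) * zs_rel

/-- the row sums of the conjugated matrix of divided differences -/
noncomputable def Rw (t1 t2 t3 x y z u v w : ℝ) : ℝ :=
  |2 / 3 * (t1 * g11 x y z u v w + t2 * g21 x y z u v w + t3 * g31 x y z u v w)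
      - (t1 * g12 x y z u v w + t2 * g22 x y z u v w + t3 * g32 x y z u v w)
      - (t1 * g13 x y z u v w + t2 * g23 x y z u v w + t3 * g33 x y z u v w)|
    + |-(t1 * g11 x y z u v w + t2 * g21 x y z u v w + t3 * g31 x y z u v w)
      + (t1 * g12 x y z u v w + t2 * g22 x y z u v w + t3 * g32 x y z u v w)
      + 2 * (t1 * g13 x y z u v w + t2 * g23 x y z u v w + t3 * g33 x y z u v w)|
    + |(t1 * g12 x y z u v w + t2 * g22 x y z u v w + t3 * g32 x y z u v w) / 2|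

theorem Rw_cont (t1 t2 t3 : ℝ) : Continuous (fun q : (ℝ × ℝ × ℝ) × (ℝ × ℝ × ℝ) =>
    Rw t1 t2 t3 q.1.1 q.1.2.1 q.1.2.2 q.2.1 q.2.2.1 q.2.2.2) := by
  unfold Rw g11 g12 g13 g21 g22 g23 g31 g32 g33
  fun_prop

theorem Rw_lt : Rw 6 0 3 xs (xs * zs) zs xs (xs * zs) zs < 9 / 10 ∧
    Rw 3 0 2 xs (xs * zs) zs xs (xs * zs) zs < 9 / 10 ∧
    Rw 6 2 2 xs (xs * zs) zs xs (xs * zs) zs < 9 / 10 := by
  have z1 := zs_lo
  have z2 := zs_hi
  have x1 := xs_lo
  have x2 := xs_hi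
  have w1 : 0.29495 < xs * zs := by nlinarith
  have w2 : xs * zs < 0.29498 := by nlinarith
  unfold Rw
  simp only [M11, M12, M13, M21, M22, M23, M31, M32, M33]
  generalize hw : xs * zs = w at *
  have hw' : 2 * xs * zs = 2 * w := by rw [← hw]; ring
  have hw'' : -xs * zs = -w := by rw [← hw]; ring
  have hw3 : xs * zs = w := hw
  refine ⟨?_, ?_, ?_⟩
  · have a1 : |2 / 3 * (6 * zs + 0 * (xs + zs) + 3 * (-5 * xs + zs - 1))
        - (6 * zs + 0 * (-w - xs) + 3 * (-w - xs - zs))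
        - (6 * (2 * w - xs) + 0 * (-w - xs + zs + 1) + 3 * (4 * xs - 3 * zs - 1))| < 0.444 := by
      rw [abs_lt]; constructor <;> linarith
    have a2 : |-(6 * zs + 0 * (xs + zs) + 3 * (-5 * xs + zs - 1))
        + (6 * zs + 0 * (-w - xs) + 3 * (-w - xs - zs))
        + 2 * (6 * (2 * w - xs) + 0 * (-w - xs + zs + 1) + 3 * (4 * xs - 3 * zs - 1))|
        < 0.186 := by
      rw [abs_lt]; constructor <;> linarith
    have a3 : |(6 * zs + 0 * (-w - xs) + 3 * (-w - xs - zs)) / 2| < 0.233 := by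
      rw [abs_lt]; constructor <;> linarith
    rw [hw', hw'']
    linarith
  · have a1 : |2 / 3 * (3 * zs + 0 * (xs + zs) + 2 * (-5 * xs + zs - 1))
        - (3 * zs + 0 * (-w - xs) + 2 * (-w - xs - zs))
        - (3 * (2 * w - xs) + 0 * (-w - xs + zs + 1) + 2 * (4 * xs - 3 * zs - 1))| < 0.025 := by
      rw [abs_lt]; constructor <;> linarith
    have a2 : |-(3 * zs + 0 * (xs + zs) + 2 * (-5 * xs + zs - 1))
        + (3 * zs + 0 * (-w - xs) + 2 * (-w - xs - zs))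
        + 2 * (3 * (2 * w - xs) + 0 * (-w - xs + zs + 1) + 2 * (4 * xs - 3 * zs - 1))|
        < 0.35 := by
      rw [abs_lt]; constructor <;> linarith
    have a3 : |(3 * zs + 0 * (-w - xs) + 2 * (-w - xs - zs)) / 2| < 0.465 := by
      rw [abs_lt]; constructor <;> linarith
    rw [hw', hw'']
    linarith
  · have a1 : |2 / 3 * (6 * zs + 2 * (xs + zs) + 2 * (-5 * xs + zs - 1))
        - (6 * zs + 2 * (-w - xs) + 2 * (-w - xs - zs))
        - (6 * (2 * w - xs) + 2 * (-w - xs + zs + 1) + 2 * (4 * xs - 3 * zs - 1))| < 0.383 := by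
      rw [abs_lt]; constructor <;> linarith
    have a2 : |-(6 * zs + 2 * (xs + zs) + 2 * (-5 * xs + zs - 1))
        + (6 * zs + 2 * (-w - xs) + 2 * (-w - xs - zs))
        + 2 * (6 * (2 * w - xs) + 2 * (-w - xs + zs + 1) + 2 * (4 * xs - 3 * zs - 1))|
        < 0.026 := by
      rw [abs_lt]; constructor <;> linarith
    have a3 : |(6 * zs + 2 * (-w - xs) + 2 * (-w - xs - zs)) / 2| < 0.31 := by
      rw [abs_lt]; constructor <;> linarith
    rw [hw', hw'']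
    linarith

/-- the adapted norm -/
noncomputable def Nm (a b c : ℝ) : ℝ := max |6 * a + 3 * c| (max |3 * a + 2 * c| |6 * a + 2 * b + 2 * c|)

theorem Nm_nonneg (a b c : ℝ) : 0 ≤ Nm a b c := le_max_of_le_left (abs_nonneg _)

theorem abs_le_Nm (a b c : ℝ) : |a| ≤ 3 * Nm a b c ∧ |b| ≤ 3 * Nm a b c ∧ |c| ≤ 3 * Nm a b c := by
  have h1 : |6 * a + 3 * c| ≤ Nm a b c := le_max_left _ _
  have h2 : |3 * a + 2 * c| ≤ Nm a b c := (le_max_left _ _).trans (le_max_right _ _)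
  have h3 : |6 * a + 2 * b + 2 * c| ≤ Nm a b c := (le_max_right _ _).trans (le_max_right _ _)
  rw [abs_le] at h1 h2 h3
  refine ⟨?_, ?_, ?_⟩ <;> rw [abs_le] <;> constructor <;> linarith [h1.1, h1.2, h2.1, h2.2, h3.1, h3.2]

theorem Nm_le (a b c m : ℝ) (ha : |a| ≤ m) (hb : |b| ≤ m) (hc : |c| ≤ m) : Nm a b c ≤ 10 * m := by
  rw [abs_le] at ha hb hc
  unfold Nm
  refine max_le ?_ (max_le ?_ ?_) <;> rw [abs_le] <;> constructor <;>
    linarith [ha.1, ha.2, hb.1, hb.2, hc.1, hc.2]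

theorem row_bound (t1 t2 t3 x y z u v w : ℝ) :
    |t1 * (g11 x y z u v w * (x - u) + g12 x y z u v w * (y - v) + g13 x y z u v w * (z - w))
      + t2 * (g21 x y z u v w * (x - u) + g22 x y z u v w * (y - v) + g23 x y z u v w * (z - w))
      + t3 * (g31 x y z u v w * (x - u) + g32 x y z u v w * (y - v) + g33 x y z u v w * (z - w))|
      ≤ Rw t1 t2 t3 x y z u v w * Nm (x - u) (y - v) (z - w) := by
  set N := Nm (x - u) (y - v) (z - w) with hN
  have h1 : |6 * (x - u) + 3 * (z - w)| ≤ N := le_max_left _ _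
  have h2 : |3 * (x - u) + 2 * (z - w)| ≤ N := (le_max_left _ _).trans (le_max_right _ _)
  have h3 : |6 * (x - u) + 2 * (y - v) + 2 * (z - w)| ≤ N :=
    (le_max_right _ _).trans (le_max_right _ _)
  have hN0 : 0 ≤ N := Nm_nonneg _ _ _
  unfold Rw
  generalize g11 x y z u v w = a11
  generalize g12 x y z u v w = a12
  generalize g13 x y z u v w = a13
  generalize g21 x y z u v w = a21
  generalize g22 x y z u v w = a22
  generalize g23 x y z u v w = a23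
  generalize g31 x y z u v w = a31
  generalize g32 x y z u v w = a32
  generalize g33 x y z u v w = a33
  have e : t1 * (a11 * (x - u) + a12 * (y - v) + a13 * (z - w))
      + t2 * (a21 * (x - u) + a22 * (y - v) + a23 * (z - w))
      + t3 * (a31 * (x - u) + a32 * (y - v) + a33 * (z - w))
      = (2 / 3 * (t1 * a11 + t2 * a21 + t3 * a31) - (t1 * a12 + t2 * a22 + t3 * a32)
          - (t1 * a13 + t2 * a23 + t3 * a33)) * (6 * (x - u) + 3 * (z - w))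
        + (-(t1 * a11 + t2 * a21 + t3 * a31) + (t1 * a12 + t2 * a22 + t3 * a32)
          + 2 * (t1 * a13 + t2 * a23 + t3 * a33)) * (3 * (x - u) + 2 * (z - w))
        + ((t1 * a12 + t2 * a22 + t3 * a32) / 2) * (6 * (x - u) + 2 * (y - v) + 2 * (z - w)) := by
    ring
  rw [e]
  refine (abs_add_three _ _ _).trans ?_
  rw [abs_mul, abs_mul, abs_mul, add_mul, add_mul]
  gcongr

/-- The contraction property. -/
theorem contr : ∃ r : ℝ, 0 < r ∧ ∀ x y z u v w : ℝ,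
    Nm (x - xs) (y - xs * zs) (z - zs) < r → Nm (u - xs) (v - xs * zs) (w - zs) < r →
    Nm (-f1 x y z - -f1 u v w) (-f2 x y z - -f2 u v w) (f3 x y z - f3 u v w)
      ≤ 9 / 10 * Nm (x - u) (y - v) (z - w) := by
  obtain ⟨l1, l2, l3⟩ := Rw_lt
  have c1 := (Rw_cont 6 0 3).continuousAt (x := ((xs, xs * zs, zs), (xs, xs * zs, zs)))
  have c2 := (Rw_cont 3 0 2).continuousAt (x := ((xs, xs * zs, zs), (xs, xs * zs, zs)))
  have c3 := (Rw_cont 6 2 2).continuousAt (x := ((xs, xs * zs, zs), (xs, xs * zs, zs)))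
  have e1 := c1.eventually (gt_mem_nhds l1)
  have e2 := c2.eventually (gt_mem_nhds l2)
  have e3 := c3.eventually (gt_mem_nhds l3)
  obtain ⟨ε, hε, hball⟩ := Metric.eventually_nhds_iff.1 (e1.and (e2.and e3))
  refine ⟨ε / 3, by positivity, ?_⟩
  intro x y z u v w h h'
  have hd : dist ((x, y, z), (u, v, w)) ((xs, xs * zs, zs), (xs, xs * zs, zs)) < ε := by
    obtain ⟨a1, a2, a3⟩ := abs_le_Nm (x - xs) (y - xs * zs) (z - zs)
    obtain ⟨b1, b2, b3⟩ := abs_le_Nm (u - xs) (v - xs * zs) (w - zs)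
    simp only [Prod.dist_eq, Real.dist_eq]
    refine max_lt (max_lt ?_ (max_lt ?_ ?_)) (max_lt ?_ (max_lt ?_ ?_)) <;> linarith
  obtain ⟨k1, k2, k3⟩ := hball hd
  have hN0 : 0 ≤ Nm (x - u) (y - v) (z - w) := Nm_nonneg _ _ _
  have R1 := row_bound 6 0 3 x y z u v w
  have R2 := row_bound 3 0 2 x y z u v w
  have R3 := row_bound 6 2 2 x y z u v w
  rw [← dd1, ← dd2, ← dd3] at R1 R2 R3
  simp only [zero_mul, add_zero] at R1 R2
  unfold Nm at R1 R2 R3 ⊢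
  unfold Nm at hN0
  refine max_le ?_ (max_le ?_ ?_)
  · exact R1.trans (mul_le_mul_of_nonneg_right k1.le hN0)
  · exact R2.trans (mul_le_mul_of_nonneg_right k2.le hN0)
  · exact R3.trans (mul_le_mul_of_nonneg_right k3.le hN0)


end Pool.Agent.Helper61.Odo
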