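import Mathlib
import Pool.Agent.Helper61.Odo.Quat
import Pool.Agent.Helper61.Odo.Contr

/-! Frames of pairs of unit quaternions, simultaneous conjugation and rigidity. -/

set_option autoImplicit false
open Topology Filter
open scoped Quaternion

namespace Pool.Agent.Helper61.Odo

/-- length of the imaginary part of the first quaternion -/
noncomputable def al (x : ℝ) : ℝ := √(1 - x ^ 2 / 4)
/-- first coordinate of the imaginary part of the second quaternion -/
noncomputable def be (x y z : ℝ) : ℝ := (x * y / 4 - z / 2) / al x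
/-- second coordinate of the imaginary part of the second quaternion -/
noncomputable def ga (x y z : ℝ) : ℝ := √(1 - y ^ 2 / 4 - be x y z ^ 2)

theorem frame_of_pair {A B : ℍ} (hA : ‖A‖ = 1) (hB : ‖B‖ = 1) {x y z : ℝ}
    (hx : 2 * A.re = x) (hy : 2 * B.re = y) (hz : 2 * (A * B).re = z)
    (h1 : 0 < 1 - x ^ 2 / 4) (h2 : 0 < 1 - y ^ 2 / 4 - be x y z ^ 2) :
    ∃ e1 e2 : ℍ, Frame e1 e2 ∧ A = (x / 2) • (1 : ℍ) + al x • e1 ∧
      B = (y / 2) • (1 : ℍ) + be x y z • e1 + ga x y z • e2 := by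
  have hal : 0 < al x := Real.sqrt_pos.mpr h1
  have hga : 0 < ga x y z := Real.sqrt_pos.mpr h2
  have hal2 : al x * al x = 1 - x ^ 2 / 4 := Real.mul_self_sqrt h1.le
  have hga2 : ga x y z * ga x y z = 1 - y ^ 2 / 4 - be x y z ^ 2 := Real.mul_self_sqrt h2.le
  have hbe : al x * be x y z = x * y / 4 - z / 2 := by
    unfold be; field_simp
  generalize al x = a at *
  generalize be x y z = b at *
  generalize ga x y z = g at *
  obtain ⟨P, hP⟩ : ∃ P : ℍ, P = A - (x / 2) • (1 : ℍ) := ⟨_, rfl⟩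
  obtain ⟨Q, hQ⟩ : ∃ Q : ℍ, Q = B - (y / 2) • (1 : ℍ) := ⟨_, rfl⟩
  have PP : P * P = (-(a * a)) • (1 : ℍ) := by
    have : P * P = A * A - x • A + (x ^ 2 / 4) • (1 : ℍ) := by
      rw [hP, sub_mul, mul_sub, mul_sub, smul_mul_assoc, mul_smul_comm, smul_mul_smul_comm, mul_one,
        one_mul, one_mul]
      module
    rw [this, sq_unit hA, hx, hal2]
    module
  have QQ : Q * Q = (-(1 - y ^ 2 / 4)) • (1 : ℍ) := by
    have : Q * Q = B * B - y • B + (y ^ 2 / 4) • (1 : ℍ) := by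
      rw [hQ, sub_mul, mul_sub, mul_sub, smul_mul_assoc, mul_smul_comm, smul_mul_smul_comm, mul_one,
        one_mul, one_mul]
      module
    rw [this, sq_unit hB, hy]
    module
  have PQ : P * Q + Q * P = (-(2 * (a * b))) • (1 : ℍ) := by
    have : P * Q + Q * P = (A * B + B * A) - x • B - y • A + (x * y / 2) • (1 : ℍ) := by
      rw [hP, hQ, sub_mul, mul_sub, mul_sub, sub_mul, mul_sub, mul_sub]
      simp only [smul_mul_assoc, mul_smul_comm, mul_one, one_mul, smul_smul]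
      module
    rw [this, anticomm, hx, hy, hbe, hz]
    have : 4 * A.re * B.re = x * y := by rw [← hx, ← hy]; ring
    rw [this]
    module
  obtain ⟨e1, he1⟩ : ∃ e1 : ℍ, e1 = a⁻¹ • P := ⟨_, rfl⟩
  have hPe : P = a • e1 := by rw [he1, smul_smul, mul_inv_cancel₀ hal.ne', one_smul]
  have s1 : e1 * e1 = -1 := by
    rw [he1, smul_mul_smul_comm, PP, smul_smul]
    have : a⁻¹ * a⁻¹ * -(a * a) = -1 := by field_simp
    rw [this]; simp
  have eQ : e1 * Q + Q * e1 = (-(2 * b)) • (1 : ℍ) := by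
    rw [he1, smul_mul_assoc, mul_smul_comm, ← smul_add, PQ, smul_smul]
    congr 1
    field_simp
  obtain ⟨R, hR⟩ : ∃ R : ℍ, R = Q - b • e1 := ⟨_, rfl⟩
  have RR : R * R = (-(g * g)) • (1 : ℍ) := by
    have : R * R = Q * Q - b • (e1 * Q + Q * e1) + (b * b) • (e1 * e1) := by
      rw [hR, sub_mul, mul_sub, mul_sub]
      simp only [smul_mul_assoc, mul_smul_comm, smul_smul]
      module
    rw [this, QQ, eQ, s1, hga2]
    module
  have eR : e1 * R + R * e1 = 0 := by
    have h1 : e1 * R = e1 * Q - b • (e1 * e1) := by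
      rw [hR, mul_sub, mul_smul_comm]
    have h2 : R * e1 = Q * e1 - b • (e1 * e1) := by
      rw [hR, sub_mul, smul_mul_assoc]
    have : e1 * R + R * e1 = (e1 * Q + Q * e1) - (2 * b) • (e1 * e1) := by
      rw [h1, h2]
      module
    rw [this, eQ, s1]
    module
  obtain ⟨e2, he2⟩ : ∃ e2 : ℍ, e2 = g⁻¹ • R := ⟨_, rfl⟩
  have hRe : R = g • e2 := by rw [he2, smul_smul, mul_inv_cancel₀ hga.ne', one_smul]
  have s2 : e2 * e2 = -1 := by
    rw [he2, smul_mul_smul_comm, RR, smul_smul]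
    have : g⁻¹ * g⁻¹ * -(g * g) = -1 := by field_simp
    rw [this]; simp
  have ac : e2 * e1 = -(e1 * e2) := by
    rw [he2, smul_mul_assoc, mul_smul_comm, ← smul_neg]
    congr 1
    exact eq_neg_of_add_eq_zero_right eR
  refine ⟨e1, e2, ⟨s1, s2, ac⟩, ?_, ?_⟩
  · rw [← hPe, hP]; abel
  · rw [← hRe, hR, hQ]; abel

theorem al_contDiff {x : ℝ} (h : 0 < 1 - x ^ 2 / 4) : ContDiffAt ℝ 1 al x := by
  unfold al
  apply ContDiffAt.sqrt
  · fun_prop
  · exact h.ne'

theorem al_p : 0.9 < al xs := by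
  have x1 := xs_lo
  have x2 := xs_hi
  apply Real.lt_sqrt_of_sq_lt
  nlinarith

theorem be_p : |be xs (xs * zs) zs| < 0.4 := by
  have x1 := xs_lo
  have x2 := xs_hi
  have z1 := zs_lo
  have z2 := zs_hi
  have ha := al_p
  unfold be
  rw [abs_div, abs_of_pos (show 0 < al xs by linarith), div_lt_iff₀ (by linarith), abs_lt]
  have v1 : 0.29 < xs * zs := by nlinarith
  have v2 : xs * zs < 0.3 := by nlinarith
  have w1 : 0.1 < xs * (xs * zs) := by nlinarith
  have w2 : xs * (xs * zs) < 0.2 := by nlinarith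
  constructor <;> nlinarith

theorem ga_arg_p : 0.7 < 1 - (xs * zs) ^ 2 / 4 - be xs (xs * zs) zs ^ 2 := by
  have x1 := xs_lo
  have x2 := xs_hi
  have z1 := zs_lo
  have z2 := zs_hi
  have hb := be_p
  rw [abs_lt] at hb
  have w1 : 0 < xs * zs := by nlinarith
  have w2 : xs * zs < 0.3 := by nlinarith
  nlinarith

theorem al_arg_p : 0 < 1 - xs ^ 2 / 4 := by
  have x1 := xs_lo
  have x2 := xs_hi
  nlinarith

/-- the vector of frame coordinates -/
noncomputable def fr (q : ℝ × ℝ × ℝ) : ℝ × ℝ × ℝ := (al q.1, be q.1 q.2.1 q.2.2, ga q.1 q.2.1 q.2.2)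

theorem fr_contDiffAt : ContDiffAt ℝ 1 fr (xs, xs * zs, zs) := by
  have h1 : ContDiffAt ℝ 1 (fun q : ℝ × ℝ × ℝ => al q.1) (xs, xs * zs, zs) :=
    ContDiffAt.comp (xs, xs * zs, zs) (g := al) (f := fun q : ℝ × ℝ × ℝ => q.1)
      (al_contDiff al_arg_p) contDiffAt_fst
  have h2 : ContDiffAt ℝ 1 (fun q : ℝ × ℝ × ℝ => be q.1 q.2.1 q.2.2) (xs, xs * zs, zs) := by
    unfold be
    apply ContDiffAt.div
    · fun_prop
    · exact h1
    · have := al_p
      show al xs ≠ 0
      linarith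
  have h3 : ContDiffAt ℝ 1 (fun q : ℝ × ℝ × ℝ => ga q.1 q.2.1 q.2.2) (xs, xs * zs, zs) := by
    unfold ga
    apply ContDiffAt.sqrt
    · apply ContDiffAt.sub
      · fun_prop
      · exact h2.pow 2
    · have := ga_arg_p
      show 1 - (xs * zs) ^ 2 / 4 - be xs (xs * zs) zs ^ 2 ≠ 0
      linarith
  exact h1.prodMk (h2.prodMk h3)

/-- Good neighbourhood: uniform non-degeneracy and Lipschitz control. -/
theorem good_nhd : ∃ r K : ℝ, 0 < r ∧ 0 ≤ K ∧
    (∀ x y z : ℝ, Nm (x - xs) (y - xs * zs) (z - zs) < r →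
      0 < 1 - x ^ 2 / 4 ∧ 0 < 1 - y ^ 2 / 4 - be x y z ^ 2 ∧ 1 / 2 ≤ al x ∧ 1 / 2 ≤ ga x y z ∧
        |be x y z| ≤ 1) ∧
    (∀ x y z u v w : ℝ, Nm (x - xs) (y - xs * zs) (z - zs) < r →
      Nm (u - xs) (v - xs * zs) (w - zs) < r →
      |al x - al u| ≤ K * Nm (x - u) (y - v) (z - w) ∧
      |be x y z - be u v w| ≤ K * Nm (x - u) (y - v) (z - w) ∧
      |ga x y z - ga u v w| ≤ K * Nm (x - u) (y - v) (z - w)) := by
  obtain ⟨K, t, ht, hK⟩ := fr_contDiffAt.exists_lipschitzOnWith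
  have hc := fr_contDiffAt.continuousAt
  have ca : ContinuousAt (fun q : ℝ × ℝ × ℝ => al q.1) (xs, xs * zs, zs) := hc.fst
  have cb : ContinuousAt (fun q : ℝ × ℝ × ℝ => be q.1 q.2.1 q.2.2) (xs, xs * zs, zs) := hc.snd.fst
  have cg : ContinuousAt (fun q : ℝ × ℝ × ℝ => ga q.1 q.2.1 q.2.2) (xs, xs * zs, zs) := hc.snd.snd
  have c1 : ContinuousAt (fun q : ℝ × ℝ × ℝ => 1 - q.1 ^ 2 / 4) (xs, xs * zs, zs) := by fun_prop
  have c2 : ContinuousAt (fun q : ℝ × ℝ × ℝ => 1 - q.2.1 ^ 2 / 4 - be q.1 q.2.1 q.2.2 ^ 2)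
      (xs, xs * zs, zs) := by
    apply ContinuousAt.sub
    · fun_prop
    · exact cb.pow 2
  have e1 := c1.eventually (lt_mem_nhds al_arg_p)
  have e2 := c2.eventually (lt_mem_nhds (show (0 : ℝ) < 1 - (xs * zs) ^ 2 / 4
    - be xs (xs * zs) zs ^ 2 by have := ga_arg_p; linarith))
  have e3 := ca.eventually (lt_mem_nhds (show (1 / 2 : ℝ) < al xs by have := al_p; linarith))
  have hgp : (1 / 2 : ℝ) < ga xs (xs * zs) zs := by
    apply Real.lt_sqrt_of_sq_lt
    have := ga_arg_p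
    norm_num
    linarith
  have e4 := cg.eventually (lt_mem_nhds hgp)
  have e5 := cb.abs.eventually (gt_mem_nhds (show |be xs (xs * zs) zs| < 1 by
    have := be_p; linarith))
  have e6 : ∀ᶠ q in 𝓝 (xs, xs * zs, zs), q ∈ t := ht
  obtain ⟨ε, hε, hball⟩ := Metric.eventually_nhds_iff.1
    (e1.and (e2.and (e3.and (e4.and (e5.and e6)))))
  have hin : ∀ x y z : ℝ, Nm (x - xs) (y - xs * zs) (z - zs) < ε / 3 →
      dist ((x, y, z) : ℝ × ℝ × ℝ) (xs, xs * zs, zs) < ε := by
    intro x y z h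
    obtain ⟨a1, a2, a3⟩ := abs_le_Nm (x - xs) (y - xs * zs) (z - zs)
    simp only [Prod.dist_eq, Real.dist_eq]
    refine max_lt ?_ (max_lt ?_ ?_) <;> linarith
  refine ⟨ε / 3, 3 * K, by positivity, by positivity, ?_, ?_⟩
  · intro x y z h
    obtain ⟨k1, k2, k3, k4, k5, -⟩ := hball (hin x y z h)
    exact ⟨k1, k2, k3.le, k4.le, k5.le⟩
  · intro x y z u v w h h'
    obtain ⟨-, -, -, -, -, k6⟩ := hball (hin x y z h)
    obtain ⟨-, -, -, -, -, k6'⟩ := hball (hin u v w h')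
    have hl := hK.dist_le_mul _ k6 _ k6'
    have hd : dist ((x, y, z) : ℝ × ℝ × ℝ) (u, v, w) ≤ 3 * Nm (x - u) (y - v) (z - w) := by
      obtain ⟨a1, a2, a3⟩ := abs_le_Nm (x - u) (y - v) (z - w)
      simp only [Prod.dist_eq, Real.dist_eq]
      exact max_le a1 (max_le a2 a3)
    have hl2 : dist (fr (x, y, z)) (fr (u, v, w)) ≤ 3 * K * Nm (x - u) (y - v) (z - w) := by
      refine hl.trans ?_
      calc (K : ℝ) * dist ((x, y, z) : ℝ × ℝ × ℝ) (u, v, w)
          ≤ K * (3 * Nm (x - u) (y - v) (z - w)) := mul_le_mul_of_nonneg_left hd K.2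
        _ = _ := by ring
    simp only [fr, Prod.dist_eq, Real.dist_eq] at hl2
    exact ⟨(le_max_left _ _).trans hl2, ((le_max_left _ _).trans (le_max_right _ _)).trans hl2,
      ((le_max_right _ _).trans (le_max_right _ _)).trans hl2⟩

/-- A unit pair with traces in the good neighbourhood. -/
structure InK (r : ℝ) (A B : ℍ) : Prop where
  hA : ‖A‖ = 1
  hB : ‖B‖ = 1
  hK : Nm (2 * A.re - xs) (2 * B.re - xs * zs) (2 * (A * B).re - zs) < r

/-- trace distance of two pairs -/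
noncomputable def td (A B A' B' : ℍ) : ℝ :=
  Nm (2 * A'.re - 2 * A.re) (2 * B'.re - 2 * B.re) (2 * (A' * B').re - 2 * (A * B).re)

/-- Simultaneous almost-conjugation and rigidity. -/
theorem lift_rigid : ∃ r L : ℝ, 0 < r ∧ 0 ≤ L ∧
    (∀ A B A' B' : ℍ, InK r A B → InK r A' B' → ∃ c : ℍ, ‖c‖ = 1 ∧
      ‖A' * c - c * A‖ ≤ L * td A B A' B' ∧ ‖B' * c - c * B‖ ≤ L * td A B A' B') ∧
    (∀ A B d : ℍ, InK r A B → ‖d‖ = 1 → ∀ ε : ℝ, ‖A * d - d * A‖ ≤ ε → ‖B * d - d * B‖ ≤ ε →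
      ‖d - 1‖ ≤ L * ε ∨ ‖d + 1‖ ≤ L * ε) := by
  obtain ⟨r, K, hr, hK0, hnd, hlip⟩ := good_nhd
  refine ⟨r, 2 * K + 16, hr, by positivity, ?_, ?_⟩
  · intro A B A' B' h h'
    obtain ⟨k1, k2, -, -, -⟩ := hnd _ _ _ h.hK
    obtain ⟨k1', k2', -, -, -⟩ := hnd _ _ _ h'.hK
    obtain ⟨e1, e2, F, hA, hB⟩ := frame_of_pair h.hA h.hB rfl rfl rfl k1 k2
    obtain ⟨e1', e2', F', hA', hB'⟩ := frame_of_pair h'.hA h'.hB rfl rfl rfl k1' k2'
    obtain ⟨c, hc, c1, c2⟩ := exists_intertwiner F F'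
    obtain ⟨l1, l2, l3⟩ := hlip _ _ _ _ _ _ h'.hK h.hK
    obtain ⟨a1, a2, a3⟩ := abs_le_Nm (2 * A'.re - 2 * A.re) (2 * B'.re - 2 * B.re)
      (2 * (A' * B').re - 2 * (A * B).re)
    have n1 := norm_of_sq F'.s1
    have n2 := norm_of_sq F'.s2
    have hN0 : 0 ≤ Nm (2 * A'.re - 2 * A.re) (2 * B'.re - 2 * B.re)
      (2 * (A' * B').re - 2 * (A * B).re) := Nm_nonneg _ _ _
    set N := Nm (2 * A'.re - 2 * A.re) (2 * B'.re - 2 * B.re)
      (2 * (A' * B').re - 2 * (A * B).re) with hN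
    have htd : td A B A' B' = N := rfl
    refine ⟨c, hc, ?_, ?_⟩
    · have e : A' * c - c * A = (2 * A'.re / 2 - 2 * A.re / 2) • c
          + (al (2 * A'.re) - al (2 * A.re)) • (e1' * c) := by
        conv_lhs => rw [hA, hA']
        rw [add_mul, mul_add, smul_mul_assoc, smul_mul_assoc, one_mul, mul_smul_comm,
          mul_smul_comm, mul_one, ← c1]
        module
      rw [e, htd]
      refine (norm_add_le _ _).trans ?_
      rw [norm_smul, norm_smul, norm_mul, n1, hc, Real.norm_eq_abs, Real.norm_eq_abs]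
      have : |2 * A'.re / 2 - 2 * A.re / 2| ≤ 3 / 2 * N := by
        rw [← sub_div, abs_div, abs_two]; linarith
      nlinarith
    · have e : B' * c - c * B = (2 * B'.re / 2 - 2 * B.re / 2) • c
          + (be (2 * A'.re) (2 * B'.re) (2 * (A' * B').re)
            - be (2 * A.re) (2 * B.re) (2 * (A * B).re)) • (e1' * c)
          + (ga (2 * A'.re) (2 * B'.re) (2 * (A' * B').re)
            - ga (2 * A.re) (2 * B.re) (2 * (A * B).re)) • (e2' * c) := by
        have hB2 : c * B = (2 * B.re / 2) • c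
            + be (2 * A.re) (2 * B.re) (2 * (A * B).re) • (e1' * c)
            + ga (2 * A.re) (2 * B.re) (2 * (A * B).re) • (e2' * c) := by
          calc c * B = c * ((2 * B.re / 2) • (1 : ℍ)
                + be (2 * A.re) (2 * B.re) (2 * (A * B).re) • e1
                + ga (2 * A.re) (2 * B.re) (2 * (A * B).re) • e2) := by rw [← hB]
            _ = _ := by
              rw [mul_add, mul_add, mul_smul_comm, mul_smul_comm, mul_smul_comm, mul_one, ← c1,
                ← c2]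
        have hB2' : B' * c = (2 * B'.re / 2) • c
            + be (2 * A'.re) (2 * B'.re) (2 * (A' * B').re) • (e1' * c)
            + ga (2 * A'.re) (2 * B'.re) (2 * (A' * B').re) • (e2' * c) := by
          calc B' * c = ((2 * B'.re / 2) • (1 : ℍ)
                + be (2 * A'.re) (2 * B'.re) (2 * (A' * B').re) • e1'
                + ga (2 * A'.re) (2 * B'.re) (2 * (A' * B').re) • e2') * c := by rw [← hB']
            _ = _ := by
              rw [add_mul, add_mul, smul_mul_assoc, smul_mul_assoc, smul_mul_assoc, one_mul]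
        rw [hB2, hB2']
        module
      rw [e, htd]
      refine norm_add₃_le.trans ?_
      rw [norm_smul, norm_smul, norm_smul, norm_mul, norm_mul, n1, n2, hc, Real.norm_eq_abs,
        Real.norm_eq_abs, Real.norm_eq_abs]
      have : |2 * B'.re / 2 - 2 * B.re / 2| ≤ 3 / 2 * N := by
        rw [← sub_div, abs_div, abs_two]; linarith
      nlinarith
  · intro A B d h hd ε hAd hBd
    obtain ⟨k1, k2, ka, kg, kb⟩ := hnd _ _ _ h.hK
    obtain ⟨e1, e2, F, hA, hB⟩ := frame_of_pair h.hA h.hB rfl rfl rfl k1 k2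
    have hε : 0 ≤ ε := (norm_nonneg _).trans hAd
    set a := al (2 * A.re) with ha
    set b := be (2 * A.re) (2 * B.re) (2 * (A * B).re) with hb
    set g := ga (2 * A.re) (2 * B.re) (2 * (A * B).re) with hg
    have m1 : ‖e1 * d - d * e1‖ ≤ 2 * ε := by
      have e : A * d - d * A = a • (e1 * d - d * e1) := by
        calc A * d - d * A = ((2 * A.re / 2) • (1 : ℍ) + a • e1) * d
              - d * ((2 * A.re / 2) • (1 : ℍ) + a • e1) := by rw [← hA]
          _ = _ := by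
            rw [add_mul, mul_add, smul_mul_assoc, smul_mul_assoc, one_mul, mul_smul_comm,
              mul_smul_comm, mul_one]
            module
      rw [e, norm_smul, Real.norm_eq_abs, abs_of_pos (by linarith)] at hAd
      nlinarith [norm_nonneg (e1 * d - d * e1)]
    have m2 : ‖e2 * d - d * e2‖ ≤ 6 * ε := by
      have e : g • (e2 * d - d * e2) = (B * d - d * B) - b • (e1 * d - d * e1) := by
        have : B * d - d * B = ((2 * B.re / 2) • (1 : ℍ) + b • e1 + g • e2) * d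
              - d * ((2 * B.re / 2) • (1 : ℍ) + b • e1 + g • e2) := by rw [← hB]
        rw [this]
        simp only [add_mul, mul_add, smul_mul_assoc, one_mul, mul_smul_comm, mul_one]
        module
      have : ‖g • (e2 * d - d * e2)‖ ≤ 3 * ε := by
        rw [e]
        refine (norm_sub_le _ _).trans ?_
        rw [norm_smul, Real.norm_eq_abs]
        nlinarith [abs_nonneg b, norm_nonneg (e1 * d - d * e1)]
      rw [norm_smul, Real.norm_eq_abs, abs_of_pos (by linarith)] at this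
      nlinarith [norm_nonneg (e2 * d - d * e2)]
    have m1' : ‖e1 * d - d * e1‖ ≤ 6 * ε := by linarith
    rcases rigid F hd m1' m2 with h3 | h3
    · left; nlinarith
    · right; nlinarith

end Pool.Agent.Helper61.Odo
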