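import Mathlib
import Pool.Agent.Helper61.Odo.Pair

/-! The sequence of conjugating unit quaternions. -/

set_option autoImplicit false
open Topology Filter
open scoped Quaternion

namespace Pool.Agent.Helper61.Odo

theorem norm_wA {A B : ℍ} (hA : ‖A‖ = 1) (hB : ‖B‖ = 1) : ‖wA A B‖ = 1 := by
  unfold wA; simp [norm_mul, hA, hB]

theorem norm_wB {A B : ℍ} (hA : ‖A‖ = 1) (hB : ‖B‖ = 1) : ‖wB A B‖ = 1 := by
  unfold wB; simp [norm_mul, hA, hB]

theorem InK.mono {r r' : ℝ} (h : r ≤ r') {A B : ℍ} (hk : InK r A B) : InK r' A B :=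
  ⟨hk.hA, hk.hB, hk.hK.trans_le h⟩

/-- One signed renormalisation step. -/
noncomputable def stp (p : ℍ × ℍ) : ℍ × ℍ := (-wA p.1 p.2, -wB p.1 p.2)

/-- almost conjugacy of two pairs -/
def Conj (ε : ℝ) (p p' : ℍ × ℍ) (c : ℍ) : Prop :=
  ‖c‖ = 1 ∧ ‖p'.1 * c - c * p.1‖ ≤ ε ∧ ‖p'.2 * c - c * p.2‖ ≤ ε

theorem radius : ∃ r L : ℝ, 0 < r ∧ 0 ≤ L ∧
    (∀ p : ℍ × ℍ, InK r p.1 p.2 → InK r (stp p).1 (stp p).2) ∧
    (∀ p p' : ℍ × ℍ, InK r p.1 p.2 → InK r p'.1 p'.2 →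
      td (stp p).1 (stp p).2 (stp p').1 (stp p').2 ≤ 9 / 10 * td p.1 p.2 p'.1 p'.2) ∧
    (∀ p p' : ℍ × ℍ, InK r p.1 p.2 → InK r p'.1 p'.2 → ∃ c : ℍ,
      Conj (L * td p.1 p.2 p'.1 p'.2) p p' c) ∧
    (∀ A B d : ℍ, InK r A B → ‖d‖ = 1 → ∀ ε : ℝ, ‖A * d - d * A‖ ≤ ε → ‖B * d - d * B‖ ≤ ε →
      ‖d - 1‖ ≤ L * ε ∨ ‖d + 1‖ ≤ L * ε) := by
  obtain ⟨r1, hr1, hc⟩ := contr
  obtain ⟨r2, L, hr2, hL, hlift, hrig⟩ := lift_rigid
  have key : ∀ p : ℍ × ℍ, InK (min r1 r2) p.1 p.2 →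
      2 * (stp p).1.re = -f1 (2 * p.1.re) (2 * p.2.re) (2 * (p.1 * p.2).re) ∧
      2 * (stp p).2.re = -f2 (2 * p.1.re) (2 * p.2.re) (2 * (p.1 * p.2).re) ∧
      2 * ((stp p).1 * (stp p).2).re = f3 (2 * p.1.re) (2 * p.2.re) (2 * (p.1 * p.2).re) := by
    intro p hp
    refine ⟨?_, ?_, ?_⟩
    · rw [← tr_wA hp.hA hp.hB]; simp [stp]
    · rw [← tr_wB hp.hA]; simp [stp]
    · rw [← tr_wAB hp.hA hp.hB]; simp only [stp, neg_mul_neg]
  refine ⟨min r1 r2, L, lt_min hr1 hr2, hL, ?_, ?_, ?_, ?_⟩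
  · intro p hp
    obtain ⟨k1, k2, k3⟩ := key p hp
    refine ⟨by simp [stp, norm_wA hp.hA hp.hB], by simp [stp, norm_wB hp.hA hp.hB], ?_⟩
    rw [k1, k2, k3]
    have h0 : Nm (xs - xs) (xs * zs - xs * zs) (zs - zs) < r1 := by
      simp only [sub_self]
      have : Nm 0 0 0 = 0 := by unfold Nm; simp
      rw [this]; exact hr1
    have h := hc _ _ _ _ _ _ (hp.hK.trans_le (min_le_left _ _)) h0
    rw [fix1, fix2, fix3] at h
    have hn := Nm_nonneg (2 * p.1.re - xs) (2 * p.2.re - xs * zs) (2 * (p.1 * p.2).re - zs)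
    have hp' := hp.hK
    linarith
  · intro p p' hp hp'
    obtain ⟨k1, k2, k3⟩ := key p hp
    obtain ⟨k1', k2', k3'⟩ := key p' hp'
    unfold td
    rw [k1, k2, k3, k1', k2', k3']
    exact hc _ _ _ _ _ _ (hp'.hK.trans_le (min_le_left _ _)) (hp.hK.trans_le (min_le_left _ _))
  · intro p p' hp hp'
    exact hlift _ _ _ _ (hp.mono (min_le_right _ _)) (hp'.mono (min_le_right _ _))
  · intro A B d h
    exact hrig A B d (h.mono (min_le_right _ _))

theorem comm_mul {P P' Q Q' c : ℍ} (hP : ‖P'‖ = 1) (hQ : ‖Q‖ = 1) {ε δ : ℝ}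
    (h1 : ‖P' * c - c * P‖ ≤ ε) (h2 : ‖Q' * c - c * Q‖ ≤ δ) :
    ‖(P' * Q') * c - c * (P * Q)‖ ≤ ε + δ := by
  have : (P' * Q') * c - c * (P * Q) = P' * (Q' * c - c * Q) + (P' * c - c * P) * Q := by
    noncomm_ring
  rw [this]
  refine (norm_add_le _ _).trans ?_
  rw [norm_mul, norm_mul, hP, hQ]
  linarith

theorem Conj.step {ε : ℝ} {p p' : ℍ × ℍ} {c : ℍ} (h : Conj ε p p' c)
    (h1 : ‖p.1‖ = 1) (h2 : ‖p.2‖ = 1) (h1' : ‖p'.1‖ = 1) (h2' : ‖p'.2‖ = 1) :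
    Conj (5 * ε) (stp p) (stp p') c := by
  obtain ⟨hc, a, b⟩ := h
  refine ⟨hc, ?_, ?_⟩
  · have e1 := comm_mul h2' h2 b b
    have e2 := comm_mul (by simp [norm_mul, h2']) h1 e1 a
    have e3 := comm_mul (by simp [norm_mul, h2', h1']) h2 e2 b
    have e4 := comm_mul (by simp [norm_mul, h2', h1']) h1 e3 a
    have : (stp p').1 * c - c * (stp p).1 = -(p'.2 * p'.2 * p'.1 * p'.2 * p'.1 * c
        - c * (p.2 * p.2 * p.1 * p.2 * p.1)) := by
      simp only [stp, wA]; noncomm_ring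
    rw [this, norm_neg]
    linarith
  · have e1 := comm_mul h1' h1 a a
    have e2 := comm_mul (by simp [norm_mul, h1']) h1 e1 a
    have e3 := comm_mul (by simp [norm_mul, h1']) h1 e2 a
    have e4 := comm_mul (by simp [norm_mul, h1']) h2 e3 b
    have : (stp p').2 * c - c * (stp p).2 = -(p'.1 * p'.1 * p'.1 * p'.1 * p'.2 * c
        - c * (p.1 * p.1 * p.1 * p.1 * p.2)) := by
      simp only [stp, wB]; noncomm_ring
    rw [this, norm_neg]
    linarith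

theorem Conj.neg {ε : ℝ} {p p' : ℍ × ℍ} {c : ℍ} (h : Conj ε p p' c) : Conj ε p p' (-c) := by
  obtain ⟨hc, a, b⟩ := h
  refine ⟨by rw [norm_neg, hc], ?_, ?_⟩
  · rw [mul_neg, neg_mul, ← neg_sub', norm_neg, ]
    simpa using a
  · rw [mul_neg, neg_mul, ← neg_sub', norm_neg, ]
    simpa using b

/-- The main statement about the conjugating sequence. -/
theorem seq_main : ∃ r : ℝ, 0 < r ∧ ∀ p p' : ℍ × ℍ, InK r p.1 p.2 → InK r p'.1 p'.2 →
    ∃ (C : ℝ) (c : ℕ → ℍ), 0 ≤ C ∧ (∀ k, Conj (C * (9 / 10) ^ k) (stp^[k] p) (stp^[k] p') (c k)) ∧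
      ∀ k, ‖c (k + 1) - c k‖ ≤ C * (9 / 10) ^ k := by
  obtain ⟨r, L, hr, hL, hst, hct, hlift, hrig⟩ := radius
  refine ⟨r, hr, fun p p' hp hp' => ?_⟩
  have hK : ∀ k, InK r (stp^[k] p).1 (stp^[k] p).2 := by
    intro k
    induction k with
    | zero => exact hp
    | succ k ih => rw [Function.iterate_succ_apply']; exact hst _ ih
  have hK' : ∀ k, InK r (stp^[k] p').1 (stp^[k] p').2 := by
    intro k
    induction k with
    | zero => exact hp'
    | succ k ih => rw [Function.iterate_succ_apply']; exact hst _ ih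
  set D := td p.1 p.2 p'.1 p'.2 with hD
  have hD0 : 0 ≤ D := Nm_nonneg _ _ _
  have htd : ∀ k, td (stp^[k] p).1 (stp^[k] p).2 (stp^[k] p').1 (stp^[k] p').2
      ≤ (9 / 10) ^ k * D := by
    intro k
    induction k with
    | zero => simp [hD]
    | succ k ih =>
      rw [Function.iterate_succ_apply', Function.iterate_succ_apply']
      refine (hct _ _ (hK k) (hK' k)).trans ?_
      rw [pow_succ]
      nlinarith
  set E := L * D with hE
  have hE0 : 0 ≤ E := mul_nonneg hL hD0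
  have hcon : ∀ k, ∃ c, Conj (E * (9 / 10) ^ k) (stp^[k] p) (stp^[k] p') c := by
    intro k
    obtain ⟨c, h0, h1, h2⟩ := hlift _ _ (hK k) (hK' k)
    have := mul_le_mul_of_nonneg_left (htd k) hL
    refine ⟨c, h0, h1.trans (by rw [hE]; linarith), h2.trans (by rw [hE]; linarith)⟩
  have hnext : ∀ k (c : ℍ), Conj (E * (9 / 10) ^ k) (stp^[k] p) (stp^[k] p') c →
      ∃ c', Conj (E * (9 / 10) ^ (k + 1)) (stp^[k + 1] p) (stp^[k + 1] p') c' ∧
        ‖c' - c‖ ≤ L * (6 * (E * (9 / 10) ^ k)) := by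
    intro k c hc
    obtain ⟨c', hc'⟩ := hcon (k + 1)
    have hs := hc.step (hK k).hA (hK k).hB (hK' k).hA (hK' k).hB
    rw [← Function.iterate_succ_apply' stp k p, ← Function.iterate_succ_apply' stp k p'] at hs
    set q := stp^[k + 1] p with hq
    set q' := stp^[k + 1] p' with hq'
    set ε := E * (9 / 10) ^ k with hε
    have hε0 : 0 ≤ ε := by positivity
    have hε1 : E * (9 / 10) ^ (k + 1) ≤ ε := by rw [hε, pow_succ]; nlinarith
    have c0 : c ≠ 0 := by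
      intro h0; have := hc.1; rw [h0, norm_zero] at this; norm_num at this
    have hcinv : ‖c⁻¹‖ = 1 := by rw [norm_inv, hc.1, inv_one]
    have main : ∀ a a' : ℍ, ‖a' * c - c * a‖ ≤ 5 * ε → ‖a' * c' - c' * a‖ ≤ ε →
        ‖a * (c⁻¹ * c') - (c⁻¹ * c') * a‖ ≤ 6 * ε := by
      intro a a' h1 h2
      have e : a * (c⁻¹ * c') - (c⁻¹ * c') * a
          = c⁻¹ * ((a' * c' - c' * a) - (a' * c - c * a) * (c⁻¹ * c')) := by
        have i1 : c⁻¹ * (c * a * (c⁻¹ * c')) = a * (c⁻¹ * c') := by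
          rw [mul_assoc c a, ← mul_assoc c⁻¹ c, inv_mul_cancel₀ c0, one_mul]
        have i2 : a' * c * (c⁻¹ * c') = a' * c' := by
          rw [mul_assoc, ← mul_assoc c, mul_inv_cancel₀ c0, one_mul]
        rw [sub_mul, i2, ← i1]
        noncomm_ring
      rw [e, norm_mul, hcinv, one_mul]
      refine (norm_sub_le _ _).trans ?_
      rw [norm_mul, norm_mul, hcinv, hc'.1]
      linarith
    have r1 := main q.1 q'.1 hs.2.1 (hc'.2.1.trans hε1)
    have r2 := main q.2 q'.2 hs.2.2 (hc'.2.2.trans hε1)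
    have hd : ‖c⁻¹ * c'‖ = 1 := by rw [norm_mul, hcinv, hc'.1, one_mul]
    rcases hrig q.1 q.2 (c⁻¹ * c') (hK (k + 1)) hd _ r1 r2 with h | h
    · refine ⟨c', hc', ?_⟩
      have : c' - c = c * (c⁻¹ * c' - 1) := by
        rw [mul_sub, ← mul_assoc, mul_inv_cancel₀ c0, one_mul, mul_one]
      rw [this, norm_mul, hc.1, one_mul]
      exact h
    · refine ⟨-c', hc'.neg, ?_⟩
      have : -c' - c = -(c * (c⁻¹ * c' + 1)) := by
        rw [mul_add, ← mul_assoc, mul_inv_cancel₀ c0, one_mul, mul_one]; abel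
      rw [this, norm_neg, norm_mul, hc.1, one_mul]
      exact h
  choose nx hnx1 hnx2 using hnext
  obtain ⟨c0, hc0⟩ := hcon 0
  let cs : (k : ℕ) → {c : ℍ // Conj (E * (9 / 10) ^ k) (stp^[k] p) (stp^[k] p') c} := fun k =>
    Nat.rec ⟨c0, hc0⟩ (fun k c => ⟨nx k c.1 c.2, hnx1 k c.1 c.2⟩) k
  refine ⟨E + L * (6 * E), fun k => (cs k).1, by positivity, ?_, ?_⟩
  · intro k
    obtain ⟨h0, h1, h2⟩ := (cs k).2
    have : E * (9 / 10 : ℝ) ^ k ≤ (E + L * (6 * E)) * (9 / 10) ^ k := by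
      apply mul_le_mul_of_nonneg_right _ (by positivity)
      have : 0 ≤ L * (6 * E) := by positivity
      linarith
    exact ⟨h0, h1.trans this, h2.trans this⟩
  · intro k
    have h := hnx2 k (cs k).1 (cs k).2
    change ‖nx k (cs k).1 (cs k).2 - (cs k).1‖ ≤ _
    refine h.trans ?_
    have : 0 ≤ E * (9 / 10 : ℝ) ^ k := by positivity
    nlinarith

end Pool.Agent.Helper61.Odo
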