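import Mathlib
import Pool.Agent.Helper61.Odo.Seq
import Pool.Agent.Helper61.Odo.Dyn

/-! Cocycle products along the odometer and the transfer function. -/

set_option autoImplicit false
open MeasureTheory Topology Filter
open scoped ENNReal Quaternion

namespace Pool.Agent.Helper61.Odo

/-- partial block products -/
noncomputable def Wp (v : Bool → ℍ) (b : Bool) : ℕ → ℍ
  | 0 => 1
  | j + 1 => v (lw b j) * Wp v b j

/-- block products -/
noncomputable def V (g : Bool → ℍ) : ℕ → Bool → ℍ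
  | 0 => g
  | k + 1 => fun b => Wp (V g k) b 5

/-- products from the beginning of the block of level `k` -/
noncomputable def P (g : Bool → ℍ) : ℕ → ℤ_[5] → ℍ
  | 0, _ => 1
  | k + 1, x => P g k x * Wp (V g k) (lt (sh^[k + 1] x)) (digit k x)

theorem Wp_norm {v : Bool → ℍ} (hv : ∀ b, ‖v b‖ = 1) (b : Bool) (j : ℕ) : ‖Wp v b j‖ = 1 := by
  induction j with
  | zero => simp [Wp]
  | succ j ih => simp only [Wp, norm_mul, hv, ih, mul_one]

theorem V_norm {g : Bool → ℍ} (hg : ∀ b, ‖g b‖ = 1) (k : ℕ) : ∀ b, ‖V g k b‖ = 1 := by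
  induction k with
  | zero => exact hg
  | succ k ih => intro b; exact Wp_norm ih b 5

theorem P_norm {g : Bool → ℍ} (hg : ∀ b, ‖g b‖ = 1) (k : ℕ) (x : ℤ_[5]) : ‖P g k x‖ = 1 := by
  induction k with
  | zero => simp [P]
  | succ k ih => simp only [P, norm_mul, ih, Wp_norm (V_norm hg k), mul_one]

theorem block {g : Bool → ℍ} {x : ℤ_[5]} (hx : Good x) (k : ℕ) (h : ∀ i, i < k → digit i x = 4) :
    g (lt x) * P g k x = V g k (lt (sh^[k] x)) := by
  induction k with
  | zero => simp [P, V]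
  | succ k ih =>
    have h1 := ih (fun i hi => h i (by omega))
    have h2 : digit k x = 4 := h k (by omega)
    have h3 : lt (sh^[k] x) = lw (lt (sh^[k + 1] x)) 4 := by
      rw [lt_rec (hx.iter k), ← Function.iterate_succ_apply' sh k x]
      have : dg (sh^[k] x) = 4 := h2
      rw [this]
    show g (lt x) * (P g k x * Wp (V g k) (lt (sh^[k + 1] x)) (digit k x)) = _
    rw [← mul_assoc, h1, h2, h3]
    rfl

theorem P_zero {g : Bool → ℍ} {x : ℤ_[5]} (k : ℕ) (h : ∀ i, i < k → digit i x = 0) :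
    P g k x = 1 := by
  induction k with
  | zero => rfl
  | succ k ih =>
    show P g k x * Wp (V g k) (lt (sh^[k + 1] x)) (digit k x) = 1
    rw [ih (fun i hi => h i (by omega)), h k (by omega)]
    simp [Wp]

theorem P_succ {g : Bool → ℍ} {x : ℤ_[5]} (hx : Good x) (m : ℕ) (h : ∀ i, i < m → digit i x = 4)
    (hm : digit m x < 4) : ∀ K, m < K → P g K (1 + x) = g (lt x) * P g K x := by
  obtain ⟨c1, c2⟩ := carry m h
  obtain ⟨c3, c4⟩ := carry_stop m h hm
  intro K hK
  induction K, hK using Nat.le_induction with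
  | base =>
    show P g m (1 + x) * Wp (V g m) (lt (sh^[m + 1] (1 + x))) (digit m (1 + x)) =
      g (lt x) * (P g m x * Wp (V g m) (lt (sh^[m + 1] x)) (digit m x))
    rw [P_zero m c2, one_mul, c3, c4 (m + 1) (by omega), ← mul_assoc, block hx m h]
    show V g m (lw (lt (sh^[m + 1] x)) (digit m x)) * _ = _
    congr 1
    congr 1
    rw [lt_rec (hx.iter m), ← Function.iterate_succ_apply' sh m x]
    rfl
  | succ K hK ih =>
    show P g K (1 + x) * Wp (V g K) (lt (sh^[K + 1] (1 + x))) (digit K (1 + x)) =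
      g (lt x) * (P g K x * Wp (V g K) (lt (sh^[K + 1] x)) (digit K x))
    rw [ih, c4 (K + 1) (by omega)]
    have : digit K (1 + x) = digit K x := by unfold digit; rw [c4 K hK]
    rw [this, mul_assoc]

theorem P_succ' {x : ℤ_[5]} (hx : Good x) :
    ∃ m : ℕ, ∀ g : Bool → ℍ, ∀ K, m < K → P g K (1 + x) = g (lt x) * P g K x := by
  have hex : ∃ m, digit m x ≠ 4 := by
    obtain ⟨k, -, hk⟩ := hx 0
    exact ⟨k, by rw [hk]; norm_num⟩
  classical
  refine ⟨Nat.find hex, fun g => P_succ hx _ (fun i hi => ?_) ?_⟩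
  · exact not_not.1 (Nat.find_min hex hi)
  · have h1 := Nat.find_spec hex
    have h2 := digit_lt (Nat.find hex) x
    omega

theorem Wp_conj {v v' : Bool → ℍ} (hv : ∀ b, ‖v b‖ = 1) (hv' : ∀ b, ‖v' b‖ = 1) {c : ℍ} {ε : ℝ}
    (h : ∀ b, ‖v' b * c - c * v b‖ ≤ ε) (b : Bool) (j : ℕ) :
    ‖Wp v' b j * c - c * Wp v b j‖ ≤ j * ε := by
  induction j with
  | zero => simp [Wp]
  | succ j ih =>
    have := comm_mul (hv' (lw b j)) (Wp_norm hv b j) (h (lw b j)) ih
    simp only [Wp]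
    push_cast
    linarith

/-- approximate transfer functions -/
noncomputable def fK (g g' : Bool → ℍ) (c : ℕ → ℍ) (K : ℕ) (x : ℤ_[5]) : ℍ :=
  P g' K x * c K * (P g K x)⁻¹

theorem fK_norm {g g' : Bool → ℍ} (hg : ∀ b, ‖g b‖ = 1) (hg' : ∀ b, ‖g' b‖ = 1) {c : ℕ → ℍ}
    (hc : ∀ k, ‖c k‖ = 1) (K : ℕ) (x : ℤ_[5]) : ‖fK g g' c K x‖ = 1 := by
  unfold fK
  rw [norm_mul, norm_mul, norm_inv, P_norm hg, P_norm hg', hc]
  norm_num

theorem fK_diff {g g' : Bool → ℍ} (hg : ∀ b, ‖g b‖ = 1) (hg' : ∀ b, ‖g' b‖ = 1) {c : ℕ → ℍ}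
    {C : ℝ} (hC : 0 ≤ C)
    (h1 : ∀ k b, ‖V g' k b * c k - c k * V g k b‖ ≤ C * (9 / 10) ^ k)
    (h2 : ∀ k, ‖c (k + 1) - c k‖ ≤ C * (9 / 10) ^ k) (K : ℕ) (x : ℤ_[5]) :
    ‖fK g g' c (K + 1) x - fK g g' c K x‖ ≤ 5 * C * (9 / 10) ^ K := by
  obtain ⟨W, hW⟩ : ∃ W, W = Wp (V g K) (lt (sh^[K + 1] x)) (digit K x) := ⟨_, rfl⟩
  obtain ⟨W', hW'⟩ : ∃ W', W' = Wp (V g' K) (lt (sh^[K + 1] x)) (digit K x) := ⟨_, rfl⟩
  have e1 : P g (K + 1) x = P g K x * W := by rw [hW]; rfl
  have e2 : P g' (K + 1) x = P g' K x * W' := by rw [hW']; rfl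
  have nW : ‖W‖ = 1 := by rw [hW]; exact Wp_norm (V_norm hg K) _ _
  have nW' : ‖W'‖ = 1 := by rw [hW']; exact Wp_norm (V_norm hg' K) _ _
  have hd : (digit K x : ℝ) ≤ 4 := by
    have := digit_lt K x
    have h4 : digit K x ≤ 4 := by omega
    exact_mod_cast h4
  have hε : 0 ≤ C * (9 / 10 : ℝ) ^ K := by positivity
  have b1 : ‖W' * c K - c K * W‖ ≤ 4 * (C * (9 / 10) ^ K) := by
    rw [hW, hW']
    refine (Wp_conj (V_norm hg K) (V_norm hg' K) (h1 K) _ _).trans ?_
    exact mul_le_mul_of_nonneg_right hd hε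
  have W0 : W ≠ 0 := by intro h0; rw [h0, norm_zero] at nW; norm_num at nW
  have e3 : fK g g' c (K + 1) x - fK g g' c K x =
      P g' K x * (W' * (c (K + 1) - c K) + (W' * c K - c K * W)) * W⁻¹ * (P g K x)⁻¹ := by
    unfold fK
    rw [e1, e2, mul_inv_rev]
    have : P g' K x * (W' * (c (K + 1) - c K) + (W' * c K - c K * W)) * W⁻¹ * (P g K x)⁻¹
        = P g' K x * W' * c (K + 1) * (W⁻¹ * (P g K x)⁻¹)
          - P g' K x * c K * (W * W⁻¹) * (P g K x)⁻¹ := by noncomm_ring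
    rw [this, mul_inv_cancel₀ W0, mul_one]
  rw [e3, norm_mul, norm_mul, norm_mul, norm_inv, norm_inv, P_norm hg, P_norm hg', nW]
  have := norm_add_le (W' * (c (K + 1) - c K)) (W' * c K - c K * W)
  rw [norm_mul, nW'] at this
  have := h2 K
  linarith

theorem stp_iter (g : Bool → ℍ) (k : ℕ) :
    stp^[k] (g true, g false) = ((-1 : ℍ) ^ k * V g k true, (-1 : ℍ) ^ k * V g k false) := by
  induction k with
  | zero => simp [V]
  | succ k ih =>
    rw [Function.iterate_succ_apply', ih]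
    rcases neg_one_pow_eq_or ℍ k with h | h
    · rw [pow_succ, h]
      simp only [stp, wA, wB, V, Wp, lw]
      norm_num
      constructor <;> noncomm_ring
    · rw [pow_succ, h]
      simp only [stp, wA, wB, V, Wp, lw]
      norm_num
      constructor <;> noncomm_ring

theorem conj_V {g g' : Bool → ℍ} {k : ℕ} {ε : ℝ} {c : ℍ}
    (h : Conj ε (stp^[k] (g true, g false)) (stp^[k] (g' true, g' false)) c) :
    ∀ b, ‖V g' k b * c - c * V g k b‖ ≤ ε := by
  rw [stp_iter, stp_iter] at h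
  obtain ⟨-, h1, h2⟩ := h
  intro b
  rcases neg_one_pow_eq_or ℍ k with hk | hk
  · rw [hk] at h1 h2
    simp only [one_mul] at h1 h2
    cases b
    · exact h2
    · exact h1
  · rw [hk] at h1 h2
    simp only [neg_mul, one_mul, mul_neg] at h1 h2
    have e : ∀ a b : ℍ, ‖a - b‖ = ‖-a - -b‖ := fun a b => by
      rw [← norm_neg]; congr 1; abel
    cases b
    · rw [e]; exact h2
    · rw [e]; exact h1

noncomputable instance measH : MeasurableSpace ℍ := borel _
instance borelH : BorelSpace ℍ := ⟨rfl⟩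

theorem P_meas (g : Bool → ℍ) (k : ℕ) : Measurable (P g k) := by
  induction k with
  | zero => exact measurable_const
  | succ k ih =>
    have : P g (k + 1) = fun x => P g k x * ((fun q : Bool × ℕ => Wp (V g k) q.1 q.2) ∘
      fun x => (lt (sh^[k + 1] x), digit k x)) x := rfl
    rw [this]
    exact ih.mul ((measurable_of_countable _).comp
      ((lt_meas.comp (sh_iter_meas (k + 1))).prodMk (digit_meas k)))

theorem fK_meas (g g' : Bool → ℍ) (c : ℕ → ℍ) (K : ℕ) : Measurable (fK g g' c K) := by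
  have h1 := P_meas g K
  have h2 := P_meas g' K
  unfold fK
  exact (h2.mul_const _).mul h1.inv

/-- Existence of a transfer function. -/
theorem transfer : ∃ r : ℝ, 0 < r ∧ ∀ g g' : Bool → ℍ, InK r (g true) (g false) →
    InK r (g' true) (g' false) → ∃ f : ℤ_[5] → ℍ, Measurable f ∧ (∀ x, ‖f x‖ = 1) ∧
      ∀ x, Good x → g' (lt x) * f x = f (1 + x) * g (lt x) := by
  obtain ⟨r, hr, hmain⟩ := seq_main
  refine ⟨r, hr, fun g g' hg hg' => ?_⟩
  have ng : ∀ b, ‖g b‖ = 1 := by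
    intro b; cases b
    · exact hg.hB
    · exact hg.hA
  have ng' : ∀ b, ‖g' b‖ = 1 := by
    intro b; cases b
    · exact hg'.hB
    · exact hg'.hA
  obtain ⟨C, c, hC, h1, h2⟩ := hmain (g true, g false) (g' true, g' false) hg hg'
  have hc : ∀ k, ‖c k‖ = 1 := fun k => (h1 k).1
  have h3 : ∀ k b, ‖V g' k b * c k - c k * V g k b‖ ≤ C * (9 / 10) ^ k := fun k => conj_V (h1 k)
  have hcau : ∀ x, CauchySeq (fun K => fK g g' c K x) := by
    intro x
    apply cauchySeq_of_le_geometric (9 / 10) (5 * C) (by norm_num)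
    intro K
    rw [dist_comm, dist_eq_norm]
    exact fK_diff ng ng' hC h3 h2 K x
  choose f hf using fun x => cauchySeq_tendsto_of_complete (hcau x)
  refine ⟨f, ?_, ?_, ?_⟩
  · exact measurable_of_tendsto_metrizable (fK_meas g g' c) (tendsto_pi_nhds.2 hf)
  · intro x
    have : Tendsto (fun K => ‖fK g g' c K x‖) atTop (𝓝 ‖f x‖) := (hf x).norm
    have h4 : (fun K => ‖fK g g' c K x‖) = fun _ => (1 : ℝ) := by
      ext K; exact fK_norm ng ng' hc K x
    rw [h4] at this
    exact (tendsto_nhds_unique this tendsto_const_nhds)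
  · intro x hx
    obtain ⟨m, hm⟩ := P_succ' hx
    have t1 : Tendsto (fun K => g' (lt x) * fK g g' c K x) atTop (𝓝 (g' (lt x) * f x)) :=
      (hf x).const_mul _
    have t2 : Tendsto (fun K => fK g g' c K (1 + x) * g (lt x)) atTop
        (𝓝 (f (1 + x) * g (lt x))) := (hf (1 + x)).mul_const _
    refine tendsto_nhds_unique t1 (t2.congr' ?_)
    filter_upwards [eventually_gt_atTop m] with K hK
    unfold fK
    rw [hm g K hK, hm g' K hK, mul_inv_rev]
    have g0 : g (lt x) ≠ 0 := by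
      intro h0; have := ng (lt x); rw [h0, norm_zero] at this; norm_num at this
    rw [mul_assoc _ ((P g K x)⁻¹ * (g (lt x))⁻¹), mul_assoc ((P g K x)⁻¹), inv_mul_cancel₀ g0,
      mul_one]
    noncomm_ring

end Pool.Agent.Helper61.Odo
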