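import Mathlib

/-! The Lie group of unit quaternions. -/

set_option autoImplicit false
open scoped Manifold ContDiff Quaternion
open Metric Module

namespace Pool.Agent.Helper61.Odo

/-- unit quaternions -/
abbrev SQ := sphere (0 : ℍ) 1

instance factFin : Fact (finrank ℝ ℍ = 3 + 1) := ⟨Quaternion.finrank_eq_four⟩

theorem coe_inv_SQ (x : SQ) : ((x⁻¹ : SQ) : ℍ) = star (x : ℍ) := by
  have h1 : ((x⁻¹ : SQ) : ℍ) = (x : ℍ)⁻¹ := rfl
  have h2 : ‖(x : ℍ)‖ = 1 := by simp
  rw [h1, Quaternion.inv_def, Quaternion.normSq_eq_norm_mul_self, h2]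
  simp

/-- conjugation as a linear map -/
noncomputable def starLin : ℍ →ₗ[ℝ] ℍ where
  toFun := star
  map_add' := star_add
  map_smul' := fun r q => by ext <;> simp

theorem star_contDiff : ContDiff ℝ ∞ (star : ℍ → ℍ) :=
  (LinearMap.toContinuousLinearMap starLin).contDiff

instance lieSQ : LieGroup (𝓡 3) ∞ SQ where
  contMDiff_mul := by
    apply ContMDiff.codRestrict_sphere
    let c : SQ → ℍ := (↑)
    have h₂ : ContMDiff (𝓘(ℝ, ℍ).prod 𝓘(ℝ, ℍ)) 𝓘(ℝ, ℍ) ∞ fun z : ℍ × ℍ => z.fst * z.snd := by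
      rw [contMDiff_iff]
      exact ⟨continuous_mul, fun x y => contDiff_mul.contDiffOn⟩
    suffices h₁ : ContMDiff ((𝓡 3).prod (𝓡 3)) (𝓘(ℝ, ℍ).prod 𝓘(ℝ, ℍ)) ∞ (Prod.map c c) from
      h₂.comp h₁
    apply ContMDiff.prodMap <;>
    exact contMDiff_coe_sphere
  contMDiff_inv := by
    apply ContMDiff.codRestrict_sphere
    have h : ContMDiff (𝓡 3) 𝓘(ℝ, ℍ) ∞ (fun x : SQ => star (x : ℍ)) :=
      star_contDiff.contMDiff.comp contMDiff_coe_sphere
    exact h.congr coe_inv_SQ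

theorem connected_SQ : ConnectedSpace SQ := by
  rw [← isConnected_iff_connectedSpace]
  apply isConnected_sphere _ _ zero_le_one
  rw [← Module.finrank_eq_rank, Quaternion.finrank_eq_four]
  norm_num

end Pool.Agent.Helper61.Odo
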